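import Pool.Agent.U647.AF.Tw
import Pool.Agent.U647.IS.Geo
import Pool.Agent.N154.TC.VGeo
import Pool.Agent.N154.TC.AGeo

/-!
# Affine varieties over complex tori
-/

set_option autoImplicit false

open Filter Topology MvPolynomial LinearAlgebra.Projectivization

namespace Pool.Agent.U647.AF

open Pool.Agent.W602.GT (IsForm val Cone)
open Pool.Agent.N154.TB (TwoForms Zeros CurveIn IsConst BrodyHyp HypFibres Elliptic OverLine Factors)
open Pool.Agent.N154.TC (Compl Stratum LocOne PunctX FactorsExp mk_line_ne compact_range)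
open Pool.Agent.N154.TT (HolToTorus RiemannForm)
open Pool.Agent.N154.GG (GraphAt HolMap Extends projDist kobayashi)

variable {n : ℕ}

theorem rep_mk {x : Fin (n + 1) → ℂ} {h : x ≠ 0} :
    ∃ c : ℂ, c ≠ 0 ∧ (Projectivization.mk ℂ x h).rep = c • x := by
  obtain ⟨a, ha⟩ := Projectivization.exists_smul_eq_mk_rep ℂ x h
  exact ⟨a, a.ne_zero, ha.symm⟩

/-- affine varieties contain no elliptic curves -/
theorem noEll {X : Set (Fin (n + 1) → ℂ)} {s : MvPolynomial (Fin (n + 1)) ℂ} {e : ℕ} (he : 0 < e)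
    (hs : s.IsHomogeneous e) (hne : ∀ x ∈ X, eval x s ≠ 0) {g : ℂ → ℙ ℂ (Fin (n + 1) → ℂ)}
    (hg : CurveIn X g) (hE : Elliptic g) : IsConst g := by
  obtain ⟨L, hL⟩ := hE
  obtain ⟨φ, hφ⟩ : ∃ φ : Fin (n + 1) → Fin (n + 1) → ℂ → ℂ, ∀ i j z,
      φ i j z = (g z).rep i ^ (e - 1) * (g z).rep j / eval (g z).rep s :=
    ⟨fun i j z => (g z).rep i ^ (e - 1) * (g z).rep j / eval (g z).rep s, fun _ _ _ => rfl⟩
  have hdiff : ∀ i j, Differentiable ℂ (φ i j) := by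
    intro i j z0
    obtain ⟨V, h, hV, hz0, hh, heq⟩ := hg.1 z0
    have h1 : φ i j =ᶠ[𝓝 z0] fun z => h z i ^ (e - 1) * h z j / eval (h z) s := by
      filter_upwards [hV.mem_nhds hz0] with z hz
      obtain ⟨hz1, hz2⟩ := heq z hz
      obtain ⟨c, hc, hrep⟩ := rep_mk (h := hz1)
      rw [← hz2] at hrep
      rw [hφ, hrep, ev_smul hs]
      simp only [Pi.smul_apply, smul_eq_mul, mul_pow]
      have h3 : c ^ e = c ^ (e - 1) * c := by
        rw [← pow_succ]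
        congr 1
        omega
      rw [h3]
      have h4 : c ^ (e - 1) ≠ 0 := pow_ne_zero _ hc
      field_simp
    have han : AnalyticOnNhd ℂ h V := hh.analyticOnNhd hV
    have h2 : eval (h z0) s ≠ 0 := by
      obtain ⟨hz1, hz2⟩ := heq z0 hz0
      obtain ⟨c, hc, hrep⟩ := rep_mk (h := hz1)
      rw [← hz2] at hrep
      have h3 := hne _ (hg.2 z0)
      rw [hrep, ev_smul hs] at h3
      exact right_ne_zero_of_mul h3
    have hi : ∀ i, AnalyticAt ℂ (fun z => h z i) z0 := fun i => (analyticAt_pi_iff.1 (han z0 hz0)) i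
    exact ((((hi i).pow _).mul (hi j)).div ((an_eval han s) z0 hz0) h2).differentiableAt.congr_of_eventuallyEq h1
  have hconst : ∀ i j z w, φ i j z = φ i j w := by
    intro i j z w
    apply (hdiff i j).apply_eq_apply_of_bounded
    apply IsCompact.isBounded
    apply compact_range (hdiff i j).continuous (L := L)
    intro l hl z
    rw [hφ, hφ, hL l hl]
  intro z w
  have hx := hne _ (hg.2 z)
  have hy := hne _ (hg.2 w)
  obtain ⟨i, hi⟩ : ∃ i, (g z).rep i ≠ 0 := by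
    by_contra hcon
    push Not at hcon
    exact (g z).rep_nonzero (funext hcon)
  have hii := hconst i i z w
  rw [hφ, hφ] at hii
  have hyi : (g w).rep i ≠ 0 := by
    intro h0
    rw [h0, mul_zero, zero_div] at hii
    exact div_ne_zero (mul_ne_zero (pow_ne_zero _ hi) hi) hx hii
  rw [← (g z).mk_rep, ← (g w).mk_rep]
  rw [Projectivization.mk_eq_mk_iff']
  refine ⟨((g w).rep i ^ (e - 1) * eval (g z).rep s) / (eval (g w).rep s * (g z).rep i ^ (e - 1)), ?_⟩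
  funext j
  have hij := hconst i j z w
  rw [hφ, hφ, div_eq_div_iff hx hy] at hij
  rw [Pi.smul_apply, smul_eq_mul, div_mul_eq_mul_div, div_eq_iff (mul_ne_zero hy (pow_ne_zero _ hi))]
  linear_combination -hij

variable {m d : ℕ} {ι ι' ι'' A : Type} {F : ι → MvPolynomial (Fin (n + 1)) ℂ}
  {P : A → ι'' → MvPolynomial (Fin (n + 1)) ℂ} {G : ι' → MvPolynomial (Fin (n + 1)) ℂ}
  {L : Submodule ℤ (Fin m → ℂ)} {α : (Fin (n + 1) → ℂ) → (Fin m → ℂ) ⧸ L}

/-- **Affine varieties over complex tori** -/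
theorem aff_geo [DiscreteTopology L] [IsZLattice ℝ L] (hF : ∀ i, IsForm (F i))
    (hPf : ∀ a i, IsForm (P a i)) (hD : ∀ I : Set A, I.Nonempty → BrodyHyp (Stratum F P I))
    (hloc : ∀ a, LocOne F (P a)) (hGf : ∀ j, IsForm (G j)) (hB : BrodyHyp (Compl F P ∩ Zeros G))
    {s : MvPolynomial (Fin (n + 1)) ℂ} {e : ℕ} (he : 0 < e) (hs : s.IsHomogeneous e)
    (hne : ∀ x ∈ Compl F P, eval x s ≠ 0)
    (hsm : ∀ x ∈ Compl F P, x ∉ Zeros G → GraphAt (Compl F P) d x)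
    (hα : HolToTorus (Cone F) L α) (hfib : HypFibres (Compl F P) α) :
    BrodyHyp (Compl F P) ∧ (∀ f, PunctX (Compl F P) f → Extends F f) ∧
      ∃ c : ℝ, 0 < c ∧ ∀ p q : ℙ ℂ (Fin (n + 1) → ℂ), p.rep ∈ Compl F P → q.rep ∈ Compl F P →
        ENNReal.ofReal (c * min 1 (projDist p q)) ≤ kobayashi (Compl F P) p q := by
  obtain ⟨S, -, h2, h3, h4, h5, -⟩ := Pool.Agent.N154.TC.open_geo hF hPf hD hloc hGf hB
    (twoForms he hs hne hsm L α) hα hfib (H := fun _ _ => 0)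
    (Or.inr fun g hg hE => noEll he hs hne hg hE)
  have hS : ∀ g, g ∉ S := by
    intro g hg
    obtain ⟨h6, h7, v, w, hv, h8⟩ := h2 g hg
    refine mk_line_ne (L := L) hv (w := w) fun z => ?_
    rw [← h8, ← h8, noEll he hs hne h6 h7 z 0]
  refine ⟨fun f hf => (h3 f hf).resolve_right ?_, fun f hf => (h4 f hf).resolve_right ?_, ?_⟩
  · rintro ⟨g, hg, -⟩
    exact hS g hg
  · rintro ⟨g, hg, -⟩
    exact hS g hg
  · obtain ⟨c, hc, hcb⟩ := h5 1 one_pos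
    refine ⟨c, hc, fun p q hp hq => ?_⟩
    have h7 := hcb p q hp hq 1 zero_le_one le_rfl fun g hg => absurd hg (hS g)
    rwa [Real.one_rpow, mul_one] at h7

/-- the trivial torus -/
theorem triv_open :
    ∃ (α : (Fin (n + 1) → ℂ) → (Fin 0 → ℂ) ⧸ (⊥ : Submodule ℤ (Fin 0 → ℂ)))
      (G : Unit → MvPolynomial (Fin (n + 1)) ℂ) (k : Empty → ℕ)
      (η : Empty → (Fin (n + 1) → ℂ) → (Fin (n + 1) → ℂ) → (Fin (n + 1) → ℂ) → ℂ)
      (H : (Fin 0 → ℂ) → (Fin 0 → ℂ) → ℂ),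
      (∀ j, IsForm (G j)) ∧ (∀ x, x ∈ Zeros G) ∧
      (∀ X : Set (Fin (n + 1) → ℂ), TwoForms X (Zeros G) 0 α k η) ∧
      RiemannForm (⊥ : Submodule ℤ (Fin 0 → ℂ)) H ∧
      ∀ X : Set (Fin (n + 1) → ℂ), HolToTorus X (⊥ : Submodule ℤ (Fin 0 → ℂ)) α := by
  have hZero : ∀ x : Fin (n + 1) → ℂ,
      x ∈ Zeros (fun _ : Unit => (0 : MvPolynomial (Fin (n + 1)) ℂ)) := by
    intro x j
    change val x 0 = 0
    unfold Pool.Agent.W602.GT.val
    exact map_zero _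
  refine ⟨fun _ => 0, fun _ => 0, fun _ => 0, fun _ _ _ _ => 0, fun _ _ => 0,
    fun _ => ⟨0, isHomogeneous_zero _ _ _⟩, hZero, fun X => ?_, ?_, fun X => ?_⟩
  · refine ⟨fun x _ h => absurd (hZero x) h, ⟨fun q => q.elim, fun q => q.elim, fun q => q.elim⟩,
      ⟨fun q => q.elim, fun x _ _ => ⟨Set.univ, isOpen_univ, Set.mem_univ _, fun q => q.elim⟩⟩, ?_⟩
    intro U Ψ W _ _ _ _ z _ h
    exact absurd (hZero _) h
  · exact ⟨fun _ _ _ => by simp, fun _ _ _ => by simp, fun _ _ => by simp,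
      fun x hx => absurd (Subsingleton.elim x 0) hx, fun _ _ _ _ => ⟨0, by simp⟩⟩
  · refine ⟨fun _ _ _ _ => rfl, fun x _ => ⟨fun _ => 0, analyticAt_const, ?_⟩⟩
    filter_upwards with u _
    rfl

/-- Brody hyperbolic sets with Brody hyperbolic boundary -/
theorem geo_of_brody_open (hF : ∀ i, IsForm (F i))
    (hPf : ∀ a i, IsForm (P a i)) (hD : ∀ I : Set A, I.Nonempty → BrodyHyp (Stratum F P I))
    (hloc : ∀ a, LocOne F (P a)) (hB : BrodyHyp (Compl F P)) :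
    (∀ f, PunctX (Compl F P) f → Extends F f) ∧
      ∃ c : ℝ, 0 < c ∧ ∀ p q : ℙ ℂ (Fin (n + 1) → ℂ), p.rep ∈ Compl F P → q.rep ∈ Compl F P →
        ENNReal.ofReal (c * min 1 (projDist p q)) ≤ kobayashi (Compl F P) p q := by
  have hL := Pool.Agent.U647.IS.discr
  have hZ := Pool.Agent.U647.IS.zlat
  obtain ⟨α, G, k, η, H, hG, hZero, hη, hH, hα⟩ := triv_open (n := n)
  have hfib : HypFibres (Compl F P) α := fun f hf _ => hB f hf
  have hB' : BrodyHyp (Compl F P ∩ Zeros G) := fun f hf => hB f ⟨hf.1, fun z => (hf.2 z).1⟩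
  obtain ⟨S, -, h2, h3, h4, h5, -⟩ := Pool.Agent.N154.TC.open_geo hF hPf hD hloc hG hB' (hη _)
    (hα _) hfib (Or.inl hH)
  have hS : ∀ g, g ∉ S := by
    intro g hg
    obtain ⟨-, -, v, w, hv, -⟩ := h2 g hg
    exact hv (Subsingleton.elim _ _)
  refine ⟨fun f hf => (h4 f hf).resolve_right ?_, ?_⟩
  · rintro ⟨g, hg, -⟩
    exact hS g hg
  · obtain ⟨c, hc, hcb⟩ := h5 1 one_pos
    refine ⟨c, hc, fun p q hp hq => ?_⟩
    have h7 := hcb p q hp hq 1 zero_le_one le_rfl fun g hg => absurd hg (hS g)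
    rwa [Real.one_rpow, mul_one] at h7

/-- **Brody's lemma** for quasi-projective sets -/
theorem open_brody (hF : ∀ i, IsForm (F i)) (hPf : ∀ a i, IsForm (P a i))
    (hD : ∀ I : Set A, I.Nonempty → BrodyHyp (Stratum F P I)) (hloc : ∀ a, LocOne F (P a))
    {f : ℂ → ℙ ℂ (Fin (n + 1) → ℂ)} (hf : CurveIn (Compl F P) f) (hnc : ¬ IsConst f) :
    ∃ h, CurveIn (Compl F P) h ∧ ¬ IsConst h ∧ (∀ z, ∀ ε > 0, ∃ w, projDist (h z) (f w) < ε) ∧
      ∀ z w, projDist (h z) (h w) ≤ 2 * ‖z - w‖ := by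
  have hL := Pool.Agent.U647.IS.discr
  have hZ := Pool.Agent.U647.IS.zlat
  obtain ⟨α, G, k, η, H, hG, hZero, hη, hH, hα⟩ := triv_open (n := n)
  have hVX : ∀ p ∈ {p : ℙ ℂ (Fin (n + 1) → ℂ) | ∀ ε > 0, ∃ w, projDist p (f w) < ε},
      p.rep ∈ Cone F := fun p hp =>
        Pool.Agent.U647.IS.mem_cone_of_lim hF (fun z => (hf.2 z).1) hp
  have hVc : ∀ p, (∀ ε > 0, ∃ q ∈ {p : ℙ ℂ (Fin (n + 1) → ℂ) | ∀ ε > 0, ∃ w,
      projDist p (f w) < ε}, projDist p q < ε) →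
      p ∈ {p : ℙ ℂ (Fin (n + 1) → ℂ) | ∀ ε > 0, ∃ w, projDist p (f w) < ε} := by
    intro p hp ε hε
    obtain ⟨q, hq, hpq⟩ := hp (ε / 2) (half_pos hε)
    obtain ⟨w, hw⟩ := hq (ε / 2) (half_pos hε)
    exact ⟨w, by linarith [Pool.Agent.U647.IS.projDist_triangle p q (f w)]⟩
  have hfV : ∀ z, f z ∈ {p : ℙ ℂ (Fin (n + 1) → ℂ) | ∀ ε > 0, ∃ w, projDist p (f w) < ε} := by
    intro z ε hε
    exact ⟨z, by rwa [Pool.Agent.U647.IS.projDist_self]⟩
  rcases Pool.Agent.N154.TC.open_closed_geo hF hPf hloc hG (hη _) (hα _) hH hVX hVc with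
    ⟨h, h1, h2, ⟨h3, h4, -⟩ | ⟨I, hI, h3⟩⟩ | ⟨S, -, h2, -, h3, -⟩
  · exact ⟨h, h3, h1, fun z => h2 z, h4⟩
  · exact absurd (hD I hI h h3) h1
  · exfalso
    rcases h3 f hf hfV with h4 | ⟨g, hg, -⟩
    · exact hnc h4
    · obtain ⟨-, -, -, v, w, hv, -⟩ := h2 g hg
      exact hv (Subsingleton.elim _ _)

end Pool.Agent.U647.AF
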