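import Mathlib

/-!
# Hypersurface models of function fields
-/

set_option autoImplicit false

open Polynomial IntermediateField

namespace Pool.Agent.U647.AF

variable {K : Type} [Field K] [Algebra ℂ K] {n w : ℕ} (a : Fin n → K) (J : Fin w → Fin n)

/-- polynomials in the coordinates with index in `J` -/
noncomputable def bv : MvPolynomial (Fin w) ℂ →+* K :=
  (MvPolynomial.aeval (fun k => a (J k)) : MvPolynomial (Fin w) ℂ →ₐ[ℂ] K).toRingHom

/-- the subfield generated by these coordinates -/
noncomputable abbrev LJ : IntermediateField ℂ K := IntermediateField.adjoin ℂ (Set.range fun k => a (J k))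

theorem mem_LJ (b : MvPolynomial (Fin w) ℂ) : bv a J b ∈ LJ a J := by
  induction b using MvPolynomial.induction_on with
  | C c =>
    change MvPolynomial.aeval _ _ ∈ _
    rw [MvPolynomial.aeval_C]
    exact (LJ a J).algebraMap_mem c
  | add p q hp hq =>
    rw [map_add]
    exact add_mem hp hq
  | mul_X p i hp =>
    rw [map_mul]
    refine mul_mem hp ?_
    change MvPolynomial.aeval _ _ ∈ _
    rw [MvPolynomial.aeval_X]
    exact subset_adjoin _ _ ⟨i, rfl⟩

/-- the map to the subfield -/
noncomputable def io : MvPolynomial (Fin w) ℂ →+* LJ a J :=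
  (bv a J).codRestrict (LJ a J).toSubfield (mem_LJ a J)

theorem io_coe (b : MvPolynomial (Fin w) ℂ) : ((io a J b : LJ a J) : K) = bv a J b := rfl

variable {a J}

theorem frac (x : LJ a J) : ∃ p s : MvPolynomial (Fin w) ℂ, bv a J s ≠ 0 ∧
    io a J s * x = io a J p := by
  obtain ⟨p, s, hps⟩ := (IntermediateField.mem_adjoin_range_iff ℂ _ _).1 x.2
  by_cases h : bv a J s = 0
  · refine ⟨0, 1, by rw [map_one]; exact one_ne_zero, ?_⟩
    have h1 : (x : K) = 0 := by
      rw [hps]
      change _ / bv a J s = 0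
      rw [h, div_zero]
    have h2 : x = 0 := Subtype.ext h1
    rw [h2, mul_zero, map_zero]
  · refine ⟨p, s, h, Subtype.ext ?_⟩
    change bv a J s * (x : K) = bv a J p
    rw [hps]
    change bv a J s * (bv a J p / bv a J s) = _
    field_simp

/-- clearing denominators -/
theorem clear (r : (LJ a J)[X]) : ∃ s : MvPolynomial (Fin w) ℂ, bv a J s ≠ 0 ∧
    ∃ R : (MvPolynomial (Fin w) ℂ)[X], R.map (io a J) = C (io a J s) * r := by
  induction r using Polynomial.induction_on' with
  | add p q hp hq =>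
    obtain ⟨s, hs, R, hR⟩ := hp
    obtain ⟨s', hs', R', hR'⟩ := hq
    refine ⟨s * s', by rw [map_mul]; exact mul_ne_zero hs hs', C s' * R + C s * R', ?_⟩
    rw [Polynomial.map_add, Polynomial.map_mul, Polynomial.map_mul, map_C, map_C, hR, hR', map_mul,
      C_mul]
    ring
  | monomial k x =>
    obtain ⟨p, s, hs, h⟩ := frac x
    refine ⟨s, hs, Polynomial.monomial k p, ?_⟩
    rw [Polynomial.map_monomial, C_mul_monomial, h]

variable [CharZero K]

/-- elements of the field are quotients of polynomials in the coordinates by polynomials in the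
coordinates with index in `J` -/
theorem quot_rep (hgen : IntermediateField.adjoin ℂ (Set.range a) = ⊤)
    (halg : Algebra.IsAlgebraic (LJ a J) K) (f : K) : ∃ s : MvPolynomial (Fin w) ℂ, bv a J s ≠ 0 ∧
      ∃ N : MvPolynomial (Fin n) ℂ, bv a J s * f = MvPolynomial.aeval a N := by
  have h1 : f ∈ Algebra.adjoin (LJ a J) (Set.range a) := by
    have h2 : (IntermediateField.adjoin (LJ a J) (Set.range a)).toSubalgebra =
        Algebra.adjoin (LJ a J) (Set.range a) :=
      IntermediateField.adjoin_toSubalgebra_of_isAlgebraic fun x _ => halg.isAlgebraic x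
    rw [← h2]
    have h3 : f ∈ IntermediateField.adjoin ℂ (Set.range a) := by
      rw [hgen]
      trivial
    have h4 : IntermediateField.adjoin ℂ (Set.range a) ≤
        (IntermediateField.adjoin (LJ a J) (Set.range a)).restrictScalars ℂ := by
      rw [IntermediateField.adjoin_le_iff]
      exact subset_adjoin _ _
    exact h4 h3
  induction h1 using Algebra.adjoin_induction with
  | mem x hx =>
    obtain ⟨j, rfl⟩ := hx
    exact ⟨1, by rw [map_one]; exact one_ne_zero, MvPolynomial.X j, by
      rw [map_one, one_mul, MvPolynomial.aeval_X]⟩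
  | algebraMap l =>
    obtain ⟨p, s, hs, h⟩ := frac l
    refine ⟨s, hs, MvPolynomial.rename J p, ?_⟩
    rw [MvPolynomial.aeval_rename]
    have h5 := congrArg (fun z : LJ a J => (z : K)) h
    exact h5
  | add x y _ _ hx hy =>
    obtain ⟨s, hs, N, hN⟩ := hx
    obtain ⟨s', hs', N', hN'⟩ := hy
    refine ⟨s * s', by rw [map_mul]; exact mul_ne_zero hs hs',
      MvPolynomial.rename J s' * N + MvPolynomial.rename J s * N', ?_⟩
    have e : ∀ b : MvPolynomial (Fin w) ℂ, MvPolynomial.aeval a (MvPolynomial.rename J b) = bv a J b :=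
      fun b => MvPolynomial.aeval_rename _ _ _
    rw [map_add, map_mul (MvPolynomial.aeval a), map_mul (MvPolynomial.aeval a), e, e, ← hN, ← hN',
      map_mul]
    ring
  | mul x y _ _ hx hy =>
    obtain ⟨s, hs, N, hN⟩ := hx
    obtain ⟨s', hs', N', hN'⟩ := hy
    refine ⟨s * s', by rw [map_mul]; exact mul_ne_zero hs hs', N * N', ?_⟩
    rw [map_mul, map_mul, ← hN, ← hN']
    ring

omit [CharZero K] in
theorem adjoin_top (hgen : IntermediateField.adjoin ℂ (Set.range a) = ⊤) :
    IntermediateField.adjoin (LJ a J) (Set.range a) = ⊤ := by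
  rw [eq_top_iff]
  intro f _
  have h3 : f ∈ IntermediateField.adjoin ℂ (Set.range a) := by
    rw [hgen]
    trivial
  have h4 : IntermediateField.adjoin ℂ (Set.range a) ≤
      (IntermediateField.adjoin (LJ a J) (Set.range a)).restrictScalars ℂ := by
    rw [IntermediateField.adjoin_le_iff]
    exact subset_adjoin _ _
  exact h4 h3

omit [CharZero K] in
theorem finite_ext (hgen : IntermediateField.adjoin ℂ (Set.range a) = ⊤)
    (halg : Algebra.IsAlgebraic (LJ a J) K) : FiniteDimensional (LJ a J) K := by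
  have h2 : FiniteDimensional (LJ a J) (IntermediateField.adjoin (LJ a J) (Set.range a)) :=
    IntermediateField.finiteDimensional_adjoin fun x _ => (halg.isAlgebraic x).isIntegral
  rw [adjoin_top hgen] at h2
  exact (IntermediateField.topEquiv (F := LJ a J) (E := K)).toLinearEquiv.finiteDimensional

omit [CharZero K] in
theorem eval_map_io (R : (MvPolynomial (Fin w) ℂ)[X]) (θ : K) :
    Polynomial.aeval θ (R.map (io a J)) = R.eval₂ (bv a J) θ := by
  rw [Polynomial.aeval_def, Polynomial.eval₂_map]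
  rfl

/-- **hypersurface models** -/
theorem model (hgen : IntermediateField.adjoin ℂ (Set.range a) = ⊤)
    (halg : Algebra.IsAlgebraic (LJ a J) K) (hJ : AlgebraicIndependent ℂ fun k => a (J k)) :
    ∃ (N : MvPolynomial (Fin n) ℂ) (S : MvPolynomial (Fin w) ℂ)
      (R : Fin n → (MvPolynomial (Fin w) ℂ)[X]) (P : (MvPolynomial (Fin w) ℂ)[X]),
      S ≠ 0 ∧ (∀ j, bv a J S * a j = (R j).eval₂ (bv a J) (MvPolynomial.aeval a N)) ∧
      P.eval₂ (bv a J) (MvPolynomial.aeval a N) = 0 ∧
      (derivative P).eval₂ (bv a J) (MvPolynomial.aeval a N) ≠ 0 ∧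
      ∀ H : (MvPolynomial (Fin w) ℂ)[X], H.eval₂ (bv a J) (MvPolynomial.aeval a N) = 0 →
        ∃ s : MvPolynomial (Fin w) ℂ, s ≠ 0 ∧ ∃ Q, C s * H = P * Q := by
  classical
  have hfd := finite_ext hgen halg
  have hne : ∀ s : MvPolynomial (Fin w) ℂ, bv a J s ≠ 0 → s ≠ 0 := by
    rintro s hs rfl
    exact hs (map_zero _)
  have hinj : Function.Injective (io a J) := by
    intro x y hxy
    have h1 : bv a J x = bv a J y := congrArg (fun z : LJ a J => (z : K)) hxy
    exact hJ h1
  have hbne : ∀ s : MvPolynomial (Fin w) ℂ, s ≠ 0 → bv a J s ≠ 0 := by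
    intro s hs h0
    apply hs
    apply hJ
    change bv a J s = bv a J 0
    rw [h0, map_zero]
  obtain ⟨θ0, hθ0⟩ := Field.exists_primitive_element (LJ a J) K
  obtain ⟨s0, hs0, N, hN⟩ := quot_rep hgen halg θ0
  obtain ⟨θ, hθd⟩ : ∃ θ, θ = MvPolynomial.aeval a N := ⟨_, rfl⟩
  have hθ : (LJ a J)⟮θ⟯ = ⊤ := by
    rw [eq_top_iff, ← hθ0, IntermediateField.adjoin_simple_le_iff]
    have h1 : θ0 = ((io a J s0)⁻¹ : LJ a J) • θ := by
      rw [hθd, ← hN, Algebra.smul_def]
      change θ0 = (bv a J s0)⁻¹ * (bv a J s0 * θ0)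
      field_simp
    rw [h1]
    exact IntermediateField.smul_mem _ (mem_adjoin_simple_self _ _)
  have hint : IsIntegral (LJ a J) θ := (halg.isAlgebraic θ).isIntegral
  -- the representation of the elements of the field
  have hrep : ∀ f : K, ∃ s : MvPolynomial (Fin w) ℂ, s ≠ 0 ∧
      ∃ R : (MvPolynomial (Fin w) ℂ)[X], bv a J s * f = R.eval₂ (bv a J) θ := by
    intro f
    have h1 : f ∈ (LJ a J)⟮θ⟯ := by
      rw [hθ]
      trivial
    have h2 : f ∈ Algebra.adjoin (LJ a J) {θ} := by
      rw [← IntermediateField.adjoin_simple_toSubalgebra_of_isAlgebraic hint.isAlgebraic]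
      exact h1
    rw [Algebra.adjoin_singleton_eq_range_aeval] at h2
    obtain ⟨r, hr⟩ := h2
    obtain ⟨s, hs, R, hR⟩ := clear r
    refine ⟨s, hne s hs, R, ?_⟩
    rw [← eval_map_io, hR, map_mul, aeval_C]
    change _ = bv a J s * Polynomial.aeval θ r
    rw [← hr]
    rfl
  choose s hs R hR using fun j => hrep (a j)
  obtain ⟨s1, hs1, P, hP⟩ := clear (minpoly (LJ a J) θ)
  refine ⟨N, ∏ j, s j, fun j => C (∏ i ∈ Finset.univ.erase j, s i) * R j, P,
    Finset.prod_ne_zero_iff.2 fun j _ => hs j, fun j => ?_, ?_, ?_, fun H hH => ?_⟩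
  · rw [← hθd, eval₂_mul, eval₂_C, ← hR, ← Finset.mul_prod_erase _ _ (Finset.mem_univ j), map_mul]
    ring
  · rw [← hθd, ← eval_map_io, hP, map_mul, minpoly.aeval, mul_zero]
  · rw [← hθd, ← eval_map_io, ← derivative_map, hP, derivative_C_mul, map_mul, aeval_C]
    refine mul_ne_zero hs1 ?_
    exact (Algebra.IsSeparable.isSeparable (LJ a J) θ).aeval_derivative_ne_zero (minpoly.aeval _ _)
  · rw [← hθd, ← eval_map_io] at hH
    obtain ⟨q, hq⟩ := minpoly.dvd (LJ a J) θ hH
    obtain ⟨s2, hs2, Q, hQ⟩ := clear q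
    refine ⟨s1 * s2, mul_ne_zero (hne _ hs1) (hne _ hs2), Q, ?_⟩
    apply Polynomial.map_injective _ hinj
    rw [Polynomial.map_mul, Polynomial.map_mul, map_C, hP, hQ, hq, map_mul, C_mul]
    ring

end Pool.Agent.U647.AF
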