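import Pool.Agent.U647.AF.Tow
import Pool.Agent.U647.LT.Hyp
import Pool.Agent.Results.MP_e97a4d_nt.HolonomicEquivalence

/-!
# Affine schemes over number fields
-/

set_option autoImplicit false

open Filter Topology MvPolynomial LinearAlgebra.Projectivization IsDedekindDomain NumberField

namespace Pool.Agent.U647.AF

open Pool.Agent.W602.GT (IsForm val Cone)
open Pool.Agent.N154.TB (Zeros CurveIn IsConst BrodyHyp HypFibres)
open Pool.Agent.N154.TC (Compl Stratum LocOne PunctX)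
open Pool.Agent.N154.GG (GraphAt Extends projDist kobayashi)
open Pool.Agent.TH143.HE (gm IsPt GmCurvesIn)
open Pool.Agent.Results.MP_e97a4d_nt.HolonomicEquivalence (CondI CondII CondIHol CondIIHol CondIIPer)

variable {n : ℕ} {F : Set (MvPolynomial (Fin (n + 1)) ℂ)}

theorem aff_smul (hF : ∀ G ∈ F, IsForm G) {x : Fin (n + 1) → ℂ} (hx : x ∈ Aff F) {c : ℂ}
    (hc : c ≠ 0) : c • x ∈ Aff F := by
  refine ⟨⟨smul_ne_zero hc hx.1.1, fun i => ?_⟩, ?_⟩
  · obtain ⟨d, hd⟩ := hF _ i.2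
    have h1 := hx.1.2 i
    rw [val_ev] at h1 ⊢
    rw [ev_smul hd, h1, mul_zero]
  · rw [Pi.smul_apply, smul_eq_mul]
    exact mul_ne_zero hc hx.2

theorem not_isPt_top {R A : Type} [CommRing R] [CommRing A] [Nontrivial A] (φ : R →+* A)
    (x : Fin n → A) : ¬ IsPt φ (⊤ : Ideal (MvPolynomial (Fin n) R)) x := by
  intro h
  have h1 := h 1 trivial
  rw [← MvPolynomial.C_1, eval₂_C, map_one] at h1
  exact one_ne_zero h1

variable {R : Type} [CommRing R] {φ : R →+* ℂ} {I : Ideal (MvPolynomial (Fin n) R)}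

theorem noGm_iff (hFI : ∀ x : Fin n → ℂ, (Fin.cons 1 x : Fin (n + 1) → ℂ) ∈ Aff F ↔ IsPt φ I x) :
    NoGm F ↔ GmCurvesIn φ I ⊤ := by
  constructor
  · intro h l p h1 h2
    obtain ⟨u, hu, hne⟩ := h2
    exact absurd (h l p (fun v hv => (hFI _).2 (h1 v hv)) u hu) hne
  · intro h l p h1 u hu
    by_contra hne
    exact not_isPt_top φ _ (h l p (fun v hv => (hFI _).1 (h1 v hv)) ⟨u, hu, hne⟩ 1 one_ne_zero)

/-- entire curves in projective and affine coordinates -/
theorem brody_iff (hF : ∀ G ∈ F, IsForm G)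
    (hFI : ∀ x : Fin n → ℂ, (Fin.cons 1 x : Fin (n + 1) → ℂ) ∈ Aff F ↔ IsPt φ I x) :
    BrodyHyp (Aff F) ↔ ∀ f : ℂ → Fin n → ℂ, (∀ j, Differentiable ℂ (fun z => f z j)) →
      (∀ z, IsPt φ I (f z)) → (∃ z z', f z ≠ f z') →
      ∀ z, IsPt φ (⊤ : Ideal (MvPolynomial (Fin n) R)) (f z) := by
  have hcne : ∀ x : Fin n → ℂ, (Fin.cons 1 x : Fin (n + 1) → ℂ) ≠ 0 := fun x h0 => by
    have := congrFun h0 0
    rw [Fin.cons_zero] at this
    exact one_ne_zero this
  constructor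
  · rintro hB f hf hI ⟨z, z', hne⟩
    exfalso
    obtain ⟨g, hg⟩ : ∃ g : ℂ → ℙ ℂ (Fin (n + 1) → ℂ), ∀ z,
        g z = Projectivization.mk ℂ (Fin.cons 1 (f z)) (hcne _) := ⟨_, fun _ => rfl⟩
    have hgc : CurveIn (Aff F) g := by
      refine ⟨fun z => ⟨Set.univ, fun w => Fin.cons 1 (f w), isOpen_univ, Set.mem_univ _, ?_,
        fun w _ => ⟨hcne _, hg w⟩⟩, fun z => ?_⟩
      · rw [differentiableOn_univ, differentiable_pi]
        intro j
        refine Fin.cases ?_ (fun j => ?_) j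
        · simp only [Fin.cons_zero]
          exact differentiable_const _
        · simp only [Fin.cons_succ]
          exact hf j
      · obtain ⟨c, hc, hrep⟩ := rep_mk (h := hcne (f z))
        rw [hg, hrep]
        exact aff_smul hF ((hFI _).2 (hI z)) hc
    have h1 := hB g hgc z z'
    rw [hg, hg, Projectivization.mk_eq_mk_iff'] at h1
    obtain ⟨a, ha⟩ := h1
    have h2 := congrFun ha 0
    rw [Pi.smul_apply, Fin.cons_zero, Fin.cons_zero, smul_eq_mul, mul_one] at h2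
    rw [h2, one_smul] at ha
    exact hne (Fin.cons_right_injective (α := fun _ => ℂ) (1 : ℂ) ha).symm
  · intro h f hf
    obtain ⟨g, hg⟩ : ∃ g : ℂ → Fin n → ℂ, ∀ z j, g z j = (f z).rep j.succ / (f z).rep 0 :=
      ⟨fun z j => (f z).rep j.succ / (f z).rep 0, fun _ _ => rfl⟩
    have h0 : ∀ z, (f z).rep 0 ≠ 0 := fun z => (hf.2 z).2
    have hcons : ∀ z, (Fin.cons 1 (g z) : Fin (n + 1) → ℂ) = ((f z).rep 0)⁻¹ • (f z).rep := by
      intro z
      funext j
      refine Fin.cases ?_ (fun j => ?_) j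
      · rw [Fin.cons_zero, Pi.smul_apply, smul_eq_mul, inv_mul_cancel₀ (h0 z)]
      · rw [Fin.cons_succ, Pi.smul_apply, smul_eq_mul, hg, div_eq_inv_mul]
    have hgd : ∀ j, Differentiable ℂ (fun z => g z j) := by
      intro j z0
      obtain ⟨V, k, hV, hz0, hk, heq⟩ := hf.1 z0
      have hrep : ∀ z ∈ V, ∃ c : ℂ, c ≠ 0 ∧ (f z).rep = c • k z := by
        intro z hz
        obtain ⟨hz1, hz2⟩ := heq z hz
        obtain ⟨c, hc, hrep⟩ := rep_mk (h := hz1)
        exact ⟨c, hc, by rw [hz2, hrep]⟩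
      have h1 : (fun z => g z j) =ᶠ[𝓝 z0] fun z => k z j.succ / k z 0 := by
        filter_upwards [hV.mem_nhds hz0] with z hz
        obtain ⟨c, hc, hrc⟩ := hrep z hz
        rw [hg, hrc, Pi.smul_apply, Pi.smul_apply, smul_eq_mul, smul_eq_mul,
          mul_div_mul_left _ _ hc]
      have hk1 : DifferentiableAt ℂ k z0 := hk.differentiableAt (hV.mem_nhds hz0)
      have hki : ∀ i, DifferentiableAt ℂ (fun z => k z i) z0 := fun i =>
        (differentiableAt_pi.1 hk1) i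
      obtain ⟨c, hc, hrc⟩ := hrep z0 hz0
      have hk0 : k z0 0 ≠ 0 := by
        intro h3
        apply h0 z0
        rw [hrc, Pi.smul_apply, h3, smul_zero]
      exact ((hki j.succ).div (hki 0) hk0).congr_of_eventuallyEq h1
    have hgI : ∀ z, IsPt φ I (g z) := by
      intro z
      rw [← hFI, hcons]
      exact aff_smul hF (hf.2 z) (inv_ne_zero (h0 z))
    intro z w
    by_contra hne
    refine not_isPt_top φ (g z) (h g hgd hgI ⟨z, w, fun he => hne ?_⟩ z)
    rw [← (f z).mk_rep, ← (f w).mk_rep, Projectivization.mk_eq_mk_iff']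
    refine ⟨(f z).rep 0 / (f w).rep 0, ?_⟩
    have h1 := hcons z
    rw [he, hcons w] at h1
    rw [div_eq_mul_inv, mul_smul, h1, smul_smul, mul_inv_cancel₀ (h0 z), one_smul]

/-- The affine variety is Kobayashi hyperbolic. -/
def KobHyp (F : Set (MvPolynomial (Fin (n + 1)) ℂ)) : Prop :=
  ∀ p q : ℙ ℂ (Fin (n + 1) → ℂ), p.rep ∈ Aff F → q.rep ∈ Aff F → p ≠ q →
    0 < kobayashi (Aff F) p q

/-- The affine variety is hyperbolically embedded in projective space, and holomorphic maps of the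
punctured disc to it extend to the disc. -/
def HypEmbedded (F : Set (MvPolynomial (Fin (n + 1)) ℂ)) : Prop :=
  (∀ f, PunctX (Aff F) f → Extends (fam F) f) ∧
    ∃ c : ℝ, 0 < c ∧ ∀ p q : ℙ ℂ (Fin (n + 1) → ℂ), p.rep ∈ Aff F → q.rep ∈ Aff F →
      ENNReal.ofReal (c * min 1 (projDist p q)) ≤ kobayashi (Aff F) p q

theorem isPt_sup {I' : Ideal (MvPolynomial (Fin n) R)} {x : Fin n → ℂ} (h : IsPt φ I x)
    (h' : IsPt φ I' x) : IsPt φ (I ⊔ I') x := by
  intro G hG
  obtain ⟨a, ha, b, hb, rfl⟩ := Submodule.mem_sup.1 hG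
  rw [eval₂_add, h a ha, h' b hb, add_zero]

theorem isPt_of_top {I' : Ideal (MvPolynomial (Fin n) R)} {x : Fin n → ℂ}
    (h : IsPt φ (⊤ : Ideal (MvPolynomial (Fin n) R)) x) : IsPt φ I' x :=
  absurd h (not_isPt_top φ x)

variable {A ι : Type} {P : A → ι → MvPolynomial (Fin (n + 1)) ℂ}

theorem embedded_of_brody (hF : ∀ G ∈ F, IsForm G) (hb : HypBoundary F P)
    (hB : BrodyHyp (Aff F)) : HypEmbedded F := by
  have h1 := geo_of_brody_open (F := fam F) (P := P) (fun i => hF _ i.2) hb.form hb.hyp hb.loc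
    (by rw [hb.compl]; exact hB)
  rw [hb.compl] at h1
  exact h1

theorem kob_of_embedded (h : HypEmbedded F) : KobHyp F := by
  intro p q hp hq hpq
  obtain ⟨-, c, hc, hcb⟩ := h
  refine lt_of_lt_of_le ?_ (hcb p q hp hq)
  rw [ENNReal.ofReal_pos]
  have h1 := Pool.Agent.U647.LT.projDist_pos hpq
  have h2 : 0 < min 1 (projDist p q) := lt_min one_pos h1
  positivity

/-- **Affine schemes over number fields** -/
theorem ari {F₀ : Type} [Field F₀] [NumberField F₀] (ε : F₀ →+* ℂ)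
    (I I' : Ideal (MvPolynomial (Fin n) (𝓞 F₀)))
    (hFI : ∀ x : Fin n → ℂ, (Fin.cons 1 x : Fin (n + 1) → ℂ) ∈ Aff F ↔
      IsPt (ε.comp (algebraMap (𝓞 F₀) F₀)) I x) [Finite A] (hb : HypBoundary F P)
    (hd : Dissected F) (hI' : GmCurvesIn (ε.comp (algebraMap (𝓞 F₀) F₀)) (I ⊔ I') ⊤) :
    [CondI ε I I', CondI ε I ⊤, KobHyp F, GmCurvesIn (ε.comp (algebraMap (𝓞 F₀) F₀)) I I',
      CondIHol ε I I', CondIIHol I I', CondIIPer I I'].TFAE ∧
    (CondII I I' → CondI ε I I') ∧ (CondI ε I I' → HypEmbedded F) := by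
  have hF := hd.form
  have hol := Pool.Agent.Results.MP_e97a4d_nt.HolonomicEquivalence.result ε I I'
  have hB : BrodyHyp (Aff F) ↔ CondI ε I ⊤ := brody_iff hF hFI
  have h12 : CondI ε I I' → CondIHol ε I I' := fun h f h1 _ h2 h3 => h f h1 h2 h3
  have hgm : GmCurvesIn (ε.comp (algebraMap (𝓞 F₀) F₀)) I I' → CondI ε I ⊤ := by
    intro h
    rw [← hB]
    refine brody_of_noGm hb ((noGm_iff hFI).2 fun l p h1 h2 => ?_) hd subset_rfl
    exact hI' l p (fun u hu => isPt_sup (h1 u hu) (h l p h1 h2 u hu)) h2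
  have htop : CondI ε I ⊤ → CondI ε I I' := fun h f h1 h2 h3 z => isPt_of_top (h f h1 h2 h3 z)
  have hemb : CondI ε I ⊤ → HypEmbedded F := fun h => embedded_of_brody hF hb (hB.2 h)
  have hhg : CondIHol ε I I' → GmCurvesIn (ε.comp (algebraMap (𝓞 F₀) F₀)) I I' :=
    (hol.1.out 0 3).1
  refine ⟨?_, fun h => htop (hgm (hhg (hol.2.2 h))), fun h => hemb (hgm (hhg (h12 h)))⟩
  tfae_have 1 → 5 := h12
  tfae_have 5 → 4 := hhg
  tfae_have 4 → 2 := hgm
  tfae_have 2 → 1 := htop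
  tfae_have 2 → 3 := fun h => kob_of_embedded (hemb h)
  tfae_have 3 → 2 := fun h => hB.1 (Pool.Agent.U647.IS.brody_of_kob h)
  tfae_have 5 → 6 := (hol.1.out 0 1).1
  tfae_have 6 → 7 := (hol.1.out 1 2).1
  tfae_have 7 → 5 := (hol.1.out 2 0).1
  tfae_finish

end Pool.Agent.U647.AF
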