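import Pool.Agent.U647.AF.Tor

/-!
# Entire curves in closed subsets of affine varieties over complex tori
-/

set_option autoImplicit false

open Filter Topology Metric Set LinearAlgebra.Projectivization

namespace Pool.Agent.U647.AF

open Pool.Agent.N154.TC
open Pool.Agent.N154.TB (Zeros CurveIn IsConst BrodyHyp HypFibres TwoForms Elliptic OverLine Factors)
open FF Pool.Agent.Y190.OP Pool.Agent.W602.GT
open Pool.Agent.N155 (TX isCompact_TX TX_PM exists_shift nz nz_Phi nz_codis val_eval)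
open Pool.Agent.N154.TT (HolToTorus RiemannForm)
open Pool.Agent.N154.GG (HolMap HolMapOn toProj holP_comp norm_fderiv_comp contDiffAt_chart
  Phi_rep_toProj proj_ext holMap_of holP_of kobayashi projDist
  isForm_prod val_prod doubly_periodic_not_dense Xi Extends PDisc HP isOpen_HP
  exp_mem_PDisc log_mem_HP toProj_Phi_rep holMapOn_of holP_remove holP_of_on tpi holP_comp_l
  hp_cont)

variable {n m : ℕ} {ι ι' ι'' A : Type} {F : ι → MvPolynomial (Fin (n + 1)) ℂ}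
  {P : A → ι'' → MvPolynomial (Fin (n + 1)) ℂ}
  {G : ι' → MvPolynomial (Fin (n + 1)) ℂ} {d : ℕ} {L : Submodule ℤ (Fin m → ℂ)}
  {α : (Fin (n + 1) → ℂ) → (Fin m → ℂ) ⧸ L}
  {κ : Type} {k : κ → ℕ} {η : κ → (Fin (n + 1) → ℂ) → (Fin (n + 1) → ℂ) → (Fin (n + 1) → ℂ) → ℂ}

/-- **Entire curves in closed subsets of quasi-projective sets over complex tori** -/
theorem closed_aff [DiscreteTopology L] [IsZLattice ℝ L] (hF : ∀ i, IsForm (F i))
    (hPf : ∀ a i, IsForm (P a i))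
    (hloc : ∀ a, LocOne F (P a)) (hGf : ∀ j, IsForm (G j))
    (hη : TwoForms (Compl F P) (Zeros G) d α k η) (hα : HolToTorus (Cone F) L α)
    (hH : ∀ g, CurveIn (Compl F P) g → Elliptic g → IsConst g) {V : Set (ℙ ℂ (Fin (n + 1) → ℂ))}
    (hVX : ∀ p ∈ V, p.rep ∈ Cone F)
    (hVc : ∀ p, (∀ ε > 0, ∃ q ∈ V, projDist p q < ε) → p ∈ V)
    {f : ℂ → ℙ ℂ (Fin (n + 1) → ℂ)} (hf : CurveIn (Compl F P) f) (hfV : ∀ z, f z ∈ V)
    (hnc : ¬ IsConst f) :
    ∃ h : ℂ → ℙ ℂ (Fin (n + 1) → ℂ), ¬ IsConst h ∧ (∀ z, h z ∈ V) ∧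
      ((CurveIn (Compl F P) h ∧ (∀ z w, projDist (h z) (h w) ≤ 2 * ‖z - w‖) ∧
        ((∀ z w, α (h z).rep = α (h w).rep) ∨ ∀ z, (h z).rep ∈ Zeros G)) ∨
        ∃ I : Set A, I.Nonempty ∧ CurveIn (Stratum F P I) h) := by
  classical
  have hZ := cone_conic hF
  have hX := conic_compl hF hPf
  have hsub : Compl F P ⊆ Cone F := fun _ hx => hx.1
  have hZc : IsCompact (TS (Cone F)) := isCompact_TF hF
  set C : Set (Mat (n + 1)) := (fun p : ℙ ℂ (Fin (n + 1) → ℂ) => Phi p.rep) '' V with hCd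
  have hCsub : C ⊆ TS (Cone F) := by
    rintro _ ⟨p, hp, rfl⟩
    exact mem_TS (hVX p hp)
  have hmemV : ∀ M ∈ C, toProj M ∈ V := by
    rintro _ ⟨p, hp, rfl⟩
    change toProj (Phi p.rep) ∈ V
    rw [toProj_Phi_rep]
    exact hp
  have hCc : IsClosed C := by
    rw [← closure_subset_iff_isClosed]
    intro M hM
    have hM1 : M ∈ TS (Cone F) := closure_minimal hCsub hZc.isClosed hM
    refine ⟨toProj M, hVc _ fun ε hε => ?_, Phi_rep_toProj (TS_PM hZ hM1)⟩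
    obtain ⟨_, ⟨q, hq, rfl⟩, hd⟩ := Metric.mem_closure_iff.1 hM ε hε
    refine ⟨q, hq, ?_⟩
    change ‖Phi (toProj M).rep - Phi q.rep‖ < ε
    rw [Phi_rep_toProj (TS_PM hZ hM1), ← dist_eq_norm]
    exact hd
  -- curves in the boundary
  by_cases hDl : ∀ (I : Set A) (H : ℂ → Mat (n + 1)), I.Nonempty → HolP univ H →
      (∀ z, H z ∈ TS (Stratum F P I)) → (∀ z, H z ∈ C) → ∀ z, H z = H 0
  swap
  · push Not at hDl
    obtain ⟨I, H1, hI, h1, h2, h3, z0, h4⟩ := hDl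
    have hXP := conic_stratum hF hPf I
    refine ⟨fun z => toProj (H1 z), fun hc => h4 ?_, fun z => hmemV _ (h3 z),
      Or.inr ⟨I, hI, holMap_of h1, fun z => rep_toProj hXP (h2 z)⟩⟩
    have h5 := congrArg (fun p : ℙ ℂ (Fin (n + 1) → ℂ) => Phi p.rep) (hc z0 0)
    change Phi (toProj (H1 z0)).rep = Phi (toProj (H1 0)).rep at h5
    rwa [Phi_rep_toProj (TS_PM hXP (h2 z0)), Phi_rep_toProj (TS_PM hXP (h2 0))] at h5
  have hTm : TV (TS (Compl F P) ∩ C) (La L) (aM L α (Cone F)) := by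
    refine td_of hZ hα hZc (inter_subset_left.trans (TS_mono hsub)) ?_
    intro 𝓤 h H1 h1 h2 h3 h4 z
    have hC' : ∀ z, H1 z ∈ C := by
      intro z
      refine hCc.mem_of_tendsto (h3.pointwise (mem_univ z)) ?_
      filter_upwards [h1 (‖z‖ + 1)] with n hn
      exact (hn.2 z (mem_ball_zero_iff.2 (by linarith))).2
    rcases strat_of hF hPf hloc 𝓤 h H1 (fun L => (h1 L).mono fun n hn =>
      ⟨hn.1, fun z hz => (hn.2 z hz).1⟩) h2 h3 with h5 | ⟨I, hI, h5⟩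
    · exact ⟨h5 z, hC' z⟩
    · exact absurd (hDl I H1 hI h2 h5 hC') h4
  -- curves in the exceptional set
  by_cases hB : ∀ H : ℂ → Mat (n + 1), HolP univ H → (∀ z, H z ∈ TS (Compl F P) ∩ C) →
      (∀ z, H z ∈ SM (Zeros G)) → ∀ z, H z = H 0
  swap
  · push Not at hB
    obtain ⟨H1, h1, h2, h3, z0, h4⟩ := hB
    obtain ⟨Q1, g1, g2, g3, g4⟩ := nonconst_bounded hTm h1 h2 (by
      push Not
      exact ⟨z0, h4⟩)
    obtain ⟨g5, g6, g7⟩ := toProj_curve hX g1 (fun z => (g2 z).1.1) g3 g4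
    refine ⟨_, g6, fun z => hmemV _ (g2 z).1.2, Or.inl ⟨g5, g7, Or.inr fun z => ?_⟩⟩
    have h10 : Q1 z ∈ SM (Zeros G) := SM_closure (by
      rintro _ ⟨w, rfl⟩
      exact h3 w) (g2 z).2
    have hPM : Q1 z ∈ PM := TS_PM hX (g2 z).1.1
    obtain ⟨i, hi⟩ := PM.exists_diag hPM
    have e3 : Conic (Compl F P ∩ Zeros G) := fun x hx => ⟨(hX x hx.1).1, fun c hc =>
      ⟨(hX x hx.1).2 c hc, Zeros_smul hGf x hx.2 c hc⟩⟩
    exact (rep_toProj e3 ⟨chart i (Q1 z), ⟨TS_chart hX (g2 z).1.1 hi, h10 i hi⟩,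
      (PM.Phi_chart hPM hi).symm⟩).2
  have hGm : GV (TS (Compl F P) ∩ C) (La L) (aM L α (Cone F)) η := ⟨k, SM (Zeros G),
    gd_of hX (Zeros_smul hGf) (torus_mono hsub hα)
      (fun M hM i hi => aM_chart hZ hα (TS_mono hsub hM) hi) hη inter_subset_left
      (dense_of2 hX hGf inter_subset_left hB)⟩
  by_cases hfib : Fib (TS (Compl F P) ∩ C) (La L) (aM L α (Cone F))
  swap
  · unfold Fib at hfib
    push Not at hfib
    obtain ⟨P0, c, hPh0, hPm0, hPo0, hz00⟩ := hfib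
    obtain ⟨Q1, g1, g2, g3, hPo, g4⟩ := vert_bounded hTm hPh0 hPm0 hPo0 (by
      push Not
      exact hz00)
    obtain ⟨g5, g6, g7⟩ := toProj_curve hX g1 (fun z => (g2 z).1.1) g3 g4
    refine ⟨_, g6, fun z => hmemV _ (g2 z).1.2, Or.inl ⟨g5, g7, Or.inl fun z w => ?_⟩⟩
    rw [← aM_rep hZ hα (TS_mono hsub (g2 z).1.1), ← aM_rep hZ hα (TS_mono hsub (g2 w).1.1)]
    rw [← mem_La_iff.1 (hPo z), ← mem_La_iff.1 (hPo w)]
  exfalso
  obtain ⟨C1, hC0, hC⟩ := gradient_l hTm hfib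
  have hkey : ∀ (v : Fin m → ℂ) (g : ℂ → Mat (n + 1)) (β : Fin m → ℂ), v ≠ 0 →
      Lin (TS (Compl F P) ∩ C) (La L) (aM L α (Cone F)) g v β → False := by
    intro v g β hv hg
    obtain ⟨p, q, hind, hp, hq⟩ := hg.periods hTm hGm hC0 hC hv
    have h1 := hH (fun z => toProj (g z)) ⟨holMap_of hg.hol, fun z => rep_toProj hX (hg.mem z).1⟩
      (by
        obtain ⟨L', hL'⟩ := pair_periods hind hp hq
        exact ⟨L', fun l hl z => by
          change toProj (g (z + l)) = toProj (g z)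
          rw [hL' l hl z]⟩)
    apply mk_line_ne (L := L) hv (w := β)
    intro z
    rw [← mem_La_iff]
    have h2 : g z = g 0 := by
      have h3 := congrArg (fun p : ℙ ℂ (Fin (n + 1) → ℂ) => Phi p.rep) (h1 z 0)
      change Phi (toProj (g z)).rep = Phi (toProj (g 0)).rep at h3
      rwa [Phi_rep_toProj (TS_PM hX (hg.mem z).1), Phi_rep_toProj (TS_PM hX (hg.mem 0).1)] at h3
    have h3 := (La L).sub_mem (hg.ov z) (hg.ov 0)
    rw [h2] at h3
    have e : z • v + β - ((0 : ℂ) • v + β) = z • v + β - aM L α (Cone F) (g 0) -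
        ((0 : ℂ) • v + β - aM L α (Cone F) (g 0)) := by abel
    rw [e]
    exact h3
  obtain ⟨r, v, β, ℓ, e, hE⟩ := exists_En hTm hGm hC0 hC
    (fun v g β hv hg => (hkey v g β hv hg).elim)
  have hvne : ∀ j, v j ≠ 0 := fun j h0 => by
    have := hE.one j
    rw [h0, map_zero] at this
    exact zero_ne_one this
  have hPT' : ∀ z, Phi (f z).rep ∈ TS (Compl F P) ∩ C := fun z =>
    ⟨mem_TS (hf.2 z), ⟨f z, hfV z, rfl⟩⟩
  obtain ⟨φ, hφ, ho⟩ := hTm.exists_lift (holP_of hf.1) hPT'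
  rcases entire_eq hTm hfib hGm hE (holP_of hf.1) hPT' hφ ho with h2 | ⟨j, h2⟩
  · apply hnc
    intro z w
    exact proj_ext ((h2 z).trans (h2 w).symm)
  · exact hkey _ _ _ (hvne j) (hE.lin j)

end Pool.Agent.U647.AF
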