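import Pool.Agent.U647.AF.Clo

/-!
# Closed subsets: entire curves of bounded derivative in curves
-/

set_option autoImplicit false

open Filter Topology MvPolynomial LinearAlgebra.Projectivization

namespace Pool.Agent.U647.AF

open Pool.Agent.W602.GT (IsForm val Cone SubVar coords VarPts)
open Pool.Agent.N154.TB (Zeros CurveIn IsConst BrodyHyp HypFibres TwoForms)
open Pool.Agent.N154.TC (Compl Stratum LocOne PunctX)
open Pool.Agent.N154.TT (HolToTorus)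
open Pool.Agent.N154.GG (GraphAt Extends projDist kobayashi holP_of proj_ext)
open Pool.Agent.N155 (exists_closure nz nz_Phi spec_dense)
open Pool.Agent.Y190.OP (Phi HolP)
open Pool.Agent.TH143.HE (gm)

variable {n : ℕ}

theorem mem_cone_lim {ι : Type} {F : ι → MvPolynomial (Fin (n + 1)) ℂ} (hF : ∀ i, IsForm (F i))
    {p : ℙ ℂ (Fin (n + 1) → ℂ)}
    (hp : ∀ ε > 0, ∃ q : ℙ ℂ (Fin (n + 1) → ℂ), q.rep ∈ Cone F ∧ projDist p q < ε) :
    p.rep ∈ Cone F := by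
  have hX := Pool.Agent.N154.TB.cone_conic hF
  have h1 : Phi p.rep ∈ closure (Pool.Agent.N154.TB.TS (Cone F)) := by
    rw [Metric.mem_closure_iff]
    intro ε hε
    obtain ⟨q, hq, hd⟩ := hp ε hε
    refine ⟨_, Pool.Agent.N154.TB.mem_TS hq, ?_⟩
    rw [dist_eq_norm]
    exact hd
  rw [(Pool.Agent.N154.TB.isCompact_TF hF).isClosed.closure_eq] at h1
  have h2 := Pool.Agent.N154.TB.rep_toProj hX h1
  rwa [Pool.Agent.N154.GG.toProj_Phi_rep] at h2

/-- closed subsets of projective space -/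
def ClosedP (V : Set (ℙ ℂ (Fin (n + 1) → ℂ))) : Prop :=
  ∀ p, (∀ ε > 0, ∃ q ∈ V, projDist p q < ε) → p ∈ V

theorem closedP_inter {ι : Type} {F : ι → MvPolynomial (Fin (n + 1)) ℂ} (hF : ∀ i, IsForm (F i))
    {V : Set (ℙ ℂ (Fin (n + 1) → ℂ))} (hV : ClosedP V) : ClosedP (V ∩ {p | p.rep ∈ Cone F}) := by
  intro p hp
  refine ⟨hV p fun ε hε => ?_, mem_cone_lim hF fun ε hε => ?_⟩
  · obtain ⟨q, hq, hd⟩ := hp ε hε
    exact ⟨q, hq.1, hd⟩
  · obtain ⟨q, hq, hd⟩ := hp ε hε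
    exact ⟨q, hq.2, hd⟩

theorem closedP_limits (f : ℂ → ℙ ℂ (Fin (n + 1) → ℂ)) :
    ClosedP {p | ∀ ε > 0, ∃ w, projDist p (f w) < ε} := by
  intro p hp ε hε
  obtain ⟨q, hq, hpq⟩ := hp (ε / 2) (half_pos hε)
  obtain ⟨w, hw⟩ := hq (ε / 2) (half_pos hε)
  exact ⟨w, by linarith [Pool.Agent.U647.IS.projDist_triangle p q (f w)]⟩

variable {A ι : Type} {F E : Set (MvPolynomial (Fin (n + 1)) ℂ)}
  {P : A → ι → MvPolynomial (Fin (n + 1)) ℂ}

/-- **Entire curves in one-dimensional subvarieties, in the closure of an entire curve** -/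
theorem closed_sub (hb : Boundary F P) (hF : ∀ G ∈ F, IsForm G)
    (hT : MapsToTori F) {V : Set (ℙ ℂ (Fin (n + 1) → ℂ))} (hV : ClosedP V)
    (hno : ∀ I : Set A, I.Nonempty → ∀ h, CurveIn (Stratum (fam F) P I) h → (∀ z, h z ∈ V) →
      IsConst h) (w : ℕ) :
    ∀ (K : Type) [Field K] [Algebra ℂ K] (y : Fin (n + 1) → K), SubVar (fam F) K w y → y 0 ≠ 0 →
      ∀ f, CurveIn (Aff (Van y)) f → ¬ IsConst f → (∀ z, f z ∈ V) →
        ∃ h, CurveIn (Aff F) h ∧ ¬ IsConst h ∧ (∀ z, h z ∈ V) ∧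
          (∀ z w, projDist (h z) (h w) ≤ 2 * ‖z - w‖) ∧
            ∃ (K1 : Type) (_ : Field K1) (_ : Algebra ℂ K1) (w1 : ℕ) (y1 : Fin (n + 1) → K1),
              SubVar (fam F) K1 w1 y1 ∧ y1 0 ≠ 0 ∧ w1 ≤ 1 ∧ CurveIn (Aff (Van y1)) h := by
  induction w using Nat.strong_induction_on with
  | _ w ih =>
    intro K _ _ y hy hy0 f hf hnc hfV
    have hFE : F ⊆ Van y := fun G hG => ⟨hF G hG, hy.mem ⟨G, hG⟩⟩
    have hbE := hb.mono hFE
    have hEf : ∀ i, IsForm (fam (Van y) i) := fun i => i.2.1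
    have hV' := closedP_inter hEf hV
    have hne : ∀ x ∈ Compl (fam (Van y)) P, eval x (X 0 : MvPolynomial (Fin (n + 1)) ℂ) ≠ 0 := by
      intro x hx
      rw [eval_X]
      rw [hbE.compl] at hx
      exact hx.2
    have hell : ∀ g, CurveIn (Compl (fam (Van y)) P) g → Pool.Agent.N154.TB.Elliptic g →
        IsConst g := fun g hg hE => noEll one_pos (isHomogeneous_X ℂ 0) hne hg hE
    rcases Nat.lt_or_ge 1 w with hw | hw
    swap
    · -- Brody's lemma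
      have hL := Pool.Agent.U647.IS.discr
      have hZ := Pool.Agent.U647.IS.zlat
      obtain ⟨α, G, k, η, H, hG, hZero, hη, hH, hα⟩ := triv_open (n := n)
      obtain ⟨h, h1, h2, h3⟩ := closed_aff (F := fam (Van y)) (P := P) hEf hbE.form hbE.loc hG
        (hη _) (hα _) hell (V := V ∩ {p | p.rep ∈ Cone (fam (Van y))}) (fun p hp => hp.2) hV'
        (f := f) (by rw [hbE.compl]; exact hf) (fun z => ⟨hfV z, (hf.2 z).1⟩) hnc
      rcases h3 with ⟨h3, h4, -⟩ | ⟨I, hI, h3⟩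
      · rw [hbE.compl] at h3
        exact ⟨h, ⟨h3.1, fun z => ⟨cone_mono hFE (h3.2 z).1, (h3.2 z).2⟩⟩, h1, fun z => (h2 z).1,
          h4, K, _, _, w, y, hy, hy0, hw, h3⟩
      · exact absurd (hno I hI h ⟨h3.1, fun z => strat_mono hFE (h3.2 z)⟩ fun z => (h2 z).1) h1
    -- curves in proper closed subsets
    have hprop : ∀ G : MvPolynomial (Fin (n + 1)) ℂ, IsForm G → val y G ≠ 0 → ∀ f,
        CurveIn (Aff (Van y)) f → ¬ IsConst f → (∀ z, f z ∈ V) → (∀ z, val (f z).rep G = 0) →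
          ∃ h, CurveIn (Aff F) h ∧ ¬ IsConst h ∧ (∀ z, h z ∈ V) ∧
          (∀ z w, projDist (h z) (h w) ≤ 2 * ‖z - w‖) ∧
            ∃ (K1 : Type) (_ : Field K1) (_ : Algebra ℂ K1) (w1 : ℕ) (y1 : Fin (n + 1) → K1),
              SubVar (fam F) K1 w1 y1 ∧ y1 0 ≠ 0 ∧ w1 ≤ 1 ∧ CurveIn (Aff (Van y1)) h := by
      intro G hG hyG f hf hnc hfV hfG
      obtain ⟨K1, _, _, w1, y1, hsub, hy10, hf1, hv1⟩ := curve_closure (fun G hG => hG.1) hf
      have hw1 : w1 < w := by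
        by_contra hcon
        push Not at hcon
        exact hyG (spec_dense hsub.ne hsub.gen hy.dim hsub.dim hcon
          (fun G' hG' hv' => hsub.mem ⟨G', hG', hv'⟩) hG (hv1 G hG hfG))
      exact ih w1 hw1 K1 y1 ⟨hsub.ne, fun i => hsub.mem ⟨i.1, hFE i.2⟩, hsub.gen, hsub.dim⟩ hy10
        f hf1 hnc hfV
    obtain ⟨G, hG, hyG, hgr⟩ := graph_generic hy0 hy.gen hy.dim
    obtain ⟨m, L, _, _, α, hα, hfib⟩ := hT K w y hy hy0 hw
    have htf : TwoForms (Compl (fam (Van y)) P) (Zeros fun _ : Unit => G) w α (fun _ => 1)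
        (eta (X 0) 1) := twoForms one_pos (isHomogeneous_X ℂ 0) hne (by
      rw [hbE.compl, aff_van]
      intro x hx hxG
      exact hgr x hx.1 hx.2 fun h => hxG fun _ => h) L α
    obtain ⟨h, h1, h2, h3⟩ := closed_aff (F := fam (Van y)) (P := P) hEf hbE.form hbE.loc
      (fun _ => hG) htf (by rw [cone_van]; exact hα) hell
      (V := V ∩ {p | p.rep ∈ Cone (fam (Van y))}) (fun p hp => hp.2) hV'
      (f := f) (by rw [hbE.compl]; exact hf) (fun z => ⟨hfV z, (hf.2 z).1⟩) hnc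
    rcases h3 with ⟨h3, -, h5⟩ | ⟨I, hI, h3⟩
    · rw [hbE.compl] at h3
      rcases h5 with h5 | h5
      · obtain ⟨Q, hQ, hyQ, hQf⟩ := hfib (α (h 0).rep)
        refine hprop Q hQ hyQ h h3 h1 (fun z => (h2 z).1) fun z => ?_
        have h6 := h3.2 z
        rw [aff_van] at h6
        exact hQf _ h6.1 h6.2 (h5 z 0)
      · exact hprop G hG hyG h h3 h1 (fun z => (h2 z).1) fun z => h5 z ()
    · exact absurd (hno I hI h ⟨h3.1, fun z => strat_mono hFE (h3.2 z)⟩ fun z => (h2 z).1) h1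

/-- **Every entire curve has in the closure of its image an entire curve in a one-dimensional
subvariety with a nonconstant morphism from `G_m`, or in a stratum of the boundary.** -/
theorem exists_gm_curve [Finite A] (hb : Boundary F P) (hF : ∀ G ∈ F, IsForm G)
    (hT : MapsToTori F) {f : ℂ → ℙ ℂ (Fin (n + 1) → ℂ)} (hf : CurveIn (Aff F) f)
    (hnc : ¬ IsConst f) : (∃ (I : Set A) (h : ℂ → ℙ ℂ (Fin (n + 1) → ℂ)), I.Nonempty ∧
      CurveIn (Stratum (fam F) P I) h ∧ ¬ IsConst h ∧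
        ∀ z, ∀ ε > 0, ∃ w, projDist (h z) (f w) < ε) ∨ ∃ h, CurveIn (Aff F) h ∧ ¬ IsConst h ∧
      (∀ z, ∀ ε > 0, ∃ w, projDist (h z) (f w) < ε) ∧ ∃ (l : ℕ) (p : Fin n → Polynomial ℂ),
      (∀ u : ℂ, u ≠ 0 → (Fin.cons 1 (gm l p u) : Fin (n + 1) → ℂ) ∈ Aff F) ∧
      (∃ u : ℂ, u ≠ 0 ∧ gm l p u ≠ gm l p 1) ∧
      ∀ G : MvPolynomial (Fin (n + 1)) ℂ, IsForm G →
        (∀ u : ℂ, u ≠ 0 → val (Fin.cons 1 (gm l p u) : Fin (n + 1) → ℂ) G = 0) →
          ∀ z, val (h z).rep G = 0 := by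
  by_cases hno : ∀ I : Set A, I.Nonempty → ∀ h, CurveIn (Stratum (fam F) P I) h →
      (∀ z, h z ∈ {p | ∀ ε > 0, ∃ w, projDist p (f w) < ε}) → IsConst h
  swap
  · left
    push Not at hno
    obtain ⟨I, hI, h, h1, h2, h3⟩ := hno
    exact ⟨I, h, hI, h1, h3, fun z => h2 z⟩
  right
  obtain ⟨K, _, _, w, y, hsub, hy0, hfy, -⟩ := curve_closure hF hf
  obtain ⟨h, h1, h2, h3, h4, K1, _, _, w1, y1, h5, h6, h7, h8⟩ := closed_sub hb hF hT
    (closedP_limits f) hno w K y hsub hy0 f hfy hnc fun z ε hε =>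
      ⟨z, by rwa [Pool.Agent.U647.IS.projDist_self]⟩
  refine ⟨h, h1, h2, fun z => h3 z, ?_⟩
  have hFE : F ⊆ Van y1 := fun G hG => ⟨hF G hG, h5.mem ⟨G, hG⟩⟩
  have hbE := hb.mono hFE
  obtain ⟨l, p, g1, g2, g3⟩ := gm_of_low (F := fam (Van y1)) (P := P) (fun i => i.2.1) hbE.form
    (fun x hx => by
      rw [hbE.compl] at hx
      exact hx.2)
    (fun x hx h0 => by
      rw [hbE.compl]
      exact ⟨hx, h0⟩) (Q := fam (Van y1)) (fun i => i.2.1) (fun K' _ _ w' y' hy' hy'0 =>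
      (trdeg_mono h6 hy'0 hy'.gen h5.dim hy'.dim fun G hG hv => hy'.mem ⟨G, hG, hv⟩).trans h7)
    (h := h) (by rw [hbE.compl]; exact h8) h2 h4 (fun z i => (h8.2 z).1.2 i)
  refine ⟨l, p, fun u hu => ?_, g2, g3⟩
  have h9 := g1 u hu
  rw [hbE.compl] at h9
  exact ⟨cone_mono hFE h9.1, h9.2⟩

end Pool.Agent.U647.AF
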