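import Pool.Agent.N155.L.Omn
import Pool.Agent.Helper386.D5V.SF_Model
import Pool.Agent.N154.TC.Defs

/-!
# Centres of places of curves in affine varieties
-/

set_option autoImplicit false

open Filter Topology MvPolynomial LinearAlgebra.Projectivization FF

namespace Pool.Agent.U647.AF

open Pool.Agent.W602.GT (IsForm val Cone SubVar coords)
open Pool.Agent.N154.TB (Zeros CurveIn IsConst)
open Pool.Agent.N154.TC (Compl)
open Pool.Agent.N155 (StratumCentre HasCentre Ctr)

variable {n : ℕ} {K : Type} [Field K] [Algebra ℂ K]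

/-- the coordinate of minimal order -/
theorem exists_min {y : Fin (n + 1) → K} (hy : y ≠ 0) (Q : Place ℂ K) :
    ∃ i, y i ≠ 0 ∧ ∀ j, Q.Reg (y j / y i) := by
  classical
  obtain ⟨j0, hj0⟩ : ∃ j, y j ≠ 0 := by
    by_contra hcon
    push Not at hcon
    exact hy (funext hcon)
  obtain ⟨i, hi, hmin⟩ := Finset.exists_min_image (Finset.univ.filter fun j => y j ≠ 0)
    (fun j => Q.ord (y j)) ⟨j0, by simpa using hj0⟩
  have hi0 : y i ≠ 0 := by simpa using hi
  refine ⟨i, hi0, fun j => ?_⟩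
  by_cases hj : y j = 0
  · rw [hj, zero_div]
    exact Q.reg_zero
  · right
    rw [div_eq_mul_inv, Q.ord_mul hj (inv_ne_zero hi0), Q.ord_inv]
    have := hmin j (by simpa using hj)
    omega

variable [IsFF ℂ K]

theorem val_red {Q : Place ℂ K} {f : K} (hf : Q.Reg f) (h : SF.val Q f ≠ 0) : Q.Reg f⁻¹ := by
  have h1 : Q.red f ≠ 0 := by
    rw [← SF.algebraMap_val]
    exact (map_ne_zero_iff _ (algebraMap ℂ Q.RF).injective).2 h
  rw [Ne, Q.red_eq_zero_iff hf] at h1
  push Not at h1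
  right
  rw [Q.ord_inv]
  omega

theorem val_unit {Q : Place ℂ K} {f : K} (hf : Q.Reg f) (hi : Q.Reg f⁻¹) (h0 : f ≠ 0) :
    SF.val Q f ≠ 0 := by
  intro h
  have h1 := SF.val_mul Q hf hi
  rw [mul_inv_cancel₀ h0, h, zero_mul] at h1
  have h2 := SF.val_const (M := K) Q 1
  rw [map_one] at h2
  rw [h2] at h1
  exact one_ne_zero h1

theorem val_aeval {Q : Place ℂ K} {x : Fin (n + 1) → K} (hx : ∀ j, Q.Reg (x j))
    (B : MvPolynomial (Fin (n + 1)) ℂ) :
    Q.Reg (aeval x B) ∧ SF.val Q (aeval x B) = eval (fun j => SF.val Q (x j)) B := by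
  induction B using MvPolynomial.induction_on with
  | C a =>
    rw [aeval_C, eval_C]
    exact ⟨Q.reg_const a, SF.val_const Q a⟩
  | add p q hp hq =>
    rw [map_add, map_add]
    exact ⟨Q.reg_add hp.1 hq.1, by rw [SF.val_add Q hp.1 hq.1, hp.2, hq.2]⟩
  | mul_X p i hp =>
    rw [map_mul, aeval_X, map_mul, eval_X]
    exact ⟨Q.reg_mul hp.1 (hx i), by rw [SF.val_mul Q hp.1 (hx i), hp.2]⟩

variable {ι ι'' A : Type} {F : ι → MvPolynomial (Fin (n + 1)) ℂ}
  {P : A → ι'' → MvPolynomial (Fin (n + 1)) ℂ} {y : Fin (n + 1) → K}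

omit [IsFF ℂ K] in
theorem val_hom {i : Fin (n + 1)} (hi : y i ≠ 0) {d : ℕ} {B : MvPolynomial (Fin (n + 1)) ℂ}
    (hB : B.IsHomogeneous d) : aeval (fun j => y j / y i) B = val y B / y i ^ d := by
  have h1 : val y B = y i ^ d * aeval (fun j => y j / y i) B := by
    rw [← Pool.Agent.N155.aeval_smul' hB]
    have h2 : (fun j => y i * (y j / y i)) = y := by
      funext j
      field_simp
    rw [h2]
    rfl
  rw [h1, mul_div_cancel_left₀ _ (pow_ne_zero _ hi)]

/-- **the centre of a place** -/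
theorem centre_mem (hF : ∀ i, IsForm (F i)) (hy : ∀ i, val y (F i) = 0) {Q : Place ℂ K}
    (hQ : ∀ a, HasCentre (P a) y Q) {i : Fin (n + 1)} (hi : y i ≠ 0)
    (hreg : ∀ j, Q.Reg (y j / y i)) : (fun j => SF.val Q (y j / y i)) ∈ Compl F P := by
  refine ⟨⟨fun h0 => ?_, fun k => ?_⟩, fun a ha => ?_⟩
  · have h1 := congrFun h0 i
    change SF.val Q (y i / y i) = 0 at h1
    rw [div_self hi] at h1
    have h2 := SF.val_const (M := K) Q 1
    rw [map_one] at h2
    rw [h2] at h1
    exact one_ne_zero h1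
  · obtain ⟨d, hd⟩ := hF k
    have h1 := (val_aeval hreg (F k)).2
    rw [val_hom hi hd, hy k, zero_div] at h1
    have h2 := SF.val_const (M := K) Q 0
    rw [map_zero] at h2
    rw [h2] at h1
    change val _ (F k) = 0
    unfold Pool.Agent.W602.GT.val
    rw [aeval_eq_eval]
    exact h1.symm
  · obtain ⟨l, d, hd, i', hi', hne, hr', hinv⟩ := hQ a
    have h1 := val_aeval hreg (P a l)
    rw [val_hom hi hd] at h1
    have h2 : (val y (P a l) / y i ^ d)⁻¹ = (y i' ^ d / val y (P a l)) * (y i / y i') ^ d := by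
      rw [inv_div, div_pow, div_mul_div_comm, mul_comm (y i' ^ d), mul_div_mul_right _ _ (pow_ne_zero _ hi')]
    have h3 : Q.Reg (val y (P a l) / y i ^ d)⁻¹ := by
      rw [h2]
      refine Q.reg_mul hinv ?_
      have h4 : ∀ m : ℕ, Q.Reg ((y i / y i') ^ m) := by
        intro m
        induction m with
        | zero => rw [pow_zero]; exact Q.reg_one
        | succ m ih => rw [pow_succ]; exact Q.reg_mul ih (hr' i)
      exact h4 d
    have h4 := val_unit h1.1 h3 (div_ne_zero hne (pow_ne_zero _ hi))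
    rw [h1.2] at h4
    apply h4
    have h5 := ha l
    change val _ (P a l) = 0 at h5
    unfold Pool.Agent.W602.GT.val at h5
    rwa [aeval_eq_eval] at h5

/-- affine coordinates are regular at the places with centre on the affine variety -/
theorem reg_of_centre (hF : ∀ i, IsForm (F i)) (hx0 : ∀ x ∈ Compl F P, x 0 ≠ 0) (hy0 : y ≠ 0)
    (hy : ∀ i, val y (F i) = 0) {Q : Place ℂ K}
    (hQ : ∀ a, HasCentre (P a) y Q) : y 0 ≠ 0 ∧ ∀ j, Q.Reg (y j / y 0) := by
  obtain ⟨i, hi, hreg⟩ := exists_min hy0 Q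
  have h1 := hx0 _ (centre_mem hF hy hQ hi hreg)
  have h2 := val_red (hreg 0) h1
  have h0 : y 0 ≠ 0 := by
    intro h0
    apply h1
    rw [h0, zero_div]
    have h3 := SF.val_const (M := K) Q 0
    rwa [map_zero] at h3
  refine ⟨h0, fun j => ?_⟩
  have h3 : y j / y 0 = (y j / y i) * (y 0 / y i)⁻¹ := by field_simp
  rw [h3]
  exact Q.reg_mul (hreg j) h2

/-- functions without poles are constants -/
theorem const_of_reg {f : K} (hf : ∀ Q : Place ℂ K, Q.Reg f) : ∃ c : ℂ, f = algebraMap ℂ K c := by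
  by_cases htr : Transcendental ℂ f
  · exfalso
    have h1 := ddeg_polar_pos htr
    have h2 : polar (k := ℂ) f = 0 := by
      ext Q
      rw [polar_apply, Finsupp.coe_zero, Pi.zero_apply, max_eq_right]
      have hf0 : f ≠ 0 := by
        rintro rfl
        exact htr isAlgebraic_zero
      have := (Q.reg_iff hf0).1 (hf Q)
      omega
    rw [h2] at h1
    simp [ddeg_zero] at h1
  · have h1 : IsAlgebraic ℂ f := not_not.1 htr
    have h2 : f ∈ algebraicClosure ℂ K := mem_algebraicClosure_iff.2 h1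
    obtain ⟨c, hc⟩ := (IsAlgClosed.algebraMap_bijective_of_isIntegral (k := ℂ)
      (K := algebraicClosure ℂ K)).2 ⟨f, h2⟩
    exact ⟨c, (congrArg Subtype.val hc).symm⟩

end Pool.Agent.U647.AF
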