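import Pool.Agent.U647.AF.Ari
import Pool.Agent.U647.AF.Cls

/-!
# Affine schemes over number fields whose subvarieties map to complex tori
-/

set_option autoImplicit false

open Filter Topology MvPolynomial LinearAlgebra.Projectivization IsDedekindDomain NumberField

namespace Pool.Agent.U647.AF

open Pool.Agent.W602.GT (IsForm val Cone)
open Pool.Agent.N154.TB (Zeros CurveIn IsConst BrodyHyp HypFibres)
open Pool.Agent.N154.TC (Compl Stratum LocOne PunctX)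
open Pool.Agent.N154.GG (GraphAt Extends projDist kobayashi)
open Pool.Agent.TH143.HE (gm IsPt GmCurvesIn extI isPt_iff)
open Pool.Agent.Y190.OP (Phi chart chart_Phi Mat)
open Pool.Agent.Results.MP_e97a4d_nt.HolonomicEquivalence (CondI CondII CondIHol CondIIHol CondIIPer)

variable {n : ℕ} {F : Set (MvPolynomial (Fin (n + 1)) ℂ)}

/-- affine coordinates of curves -/
theorem aff_curve {f : ℂ → ℙ ℂ (Fin (n + 1) → ℂ)} (hf : CurveIn (Aff F) f) :
    ∃ g : ℂ → Fin n → ℂ, (∀ j, Differentiable ℂ fun z => g z j) ∧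
      ∀ z, (Fin.cons 1 (g z) : Fin (n + 1) → ℂ) = ((f z).rep 0)⁻¹ • (f z).rep := by
  obtain ⟨g, hg⟩ : ∃ g : ℂ → Fin n → ℂ, ∀ z j, g z j = (f z).rep j.succ / (f z).rep 0 :=
    ⟨fun z j => (f z).rep j.succ / (f z).rep 0, fun _ _ => rfl⟩
  have h0 : ∀ z, (f z).rep 0 ≠ 0 := fun z => (hf.2 z).2
  refine ⟨g, fun j z0 => ?_, fun z => ?_⟩
  · obtain ⟨V, k, hV, hz0, hk, heq⟩ := hf.1 z0
    have hrep : ∀ z ∈ V, ∃ c : ℂ, c ≠ 0 ∧ (f z).rep = c • k z := by
      intro z hz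
      obtain ⟨hz1, hz2⟩ := heq z hz
      obtain ⟨c, hc, hrep⟩ := rep_mk (h := hz1)
      exact ⟨c, hc, by rw [hz2, hrep]⟩
    have h1 : (fun z => g z j) =ᶠ[𝓝 z0] fun z => k z j.succ / k z 0 := by
      filter_upwards [hV.mem_nhds hz0] with z hz
      obtain ⟨c, hc, hrc⟩ := hrep z hz
      rw [hg, hrc, Pi.smul_apply, Pi.smul_apply, smul_eq_mul, smul_eq_mul,
        mul_div_mul_left _ _ hc]
    have hk1 : DifferentiableAt ℂ k z0 := hk.differentiableAt (hV.mem_nhds hz0)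
    have hki : ∀ i, DifferentiableAt ℂ (fun z => k z i) z0 := fun i =>
      (differentiableAt_pi.1 hk1) i
    obtain ⟨c, hc, hrc⟩ := hrep z0 hz0
    have hk0 : k z0 0 ≠ 0 := by
      intro h3
      apply h0 z0
      rw [hrc, Pi.smul_apply, h3, smul_zero]
    exact ((hki j.succ).div (hki 0) hk0).congr_of_eventuallyEq h1
  · funext j
    refine Fin.cases ?_ (fun j => ?_) j
    · rw [Fin.cons_zero, Pi.smul_apply, smul_eq_mul, inv_mul_cancel₀ (h0 z)]
    · rw [Fin.cons_succ, Pi.smul_apply, smul_eq_mul, hg, div_eq_inv_mul]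

/-- projective coordinates of curves -/
theorem proj_curve (hF : ∀ G ∈ F, IsForm G) {f : ℂ → Fin n → ℂ}
    (hf : ∀ j, Differentiable ℂ fun z => f z j)
    (hm : ∀ z, (Fin.cons 1 (f z) : Fin (n + 1) → ℂ) ∈ Aff F) :
    ∃ g : ℂ → ℙ ℂ (Fin (n + 1) → ℂ), CurveIn (Aff F) g ∧
      ∀ z, (Fin.cons 1 (f z) : Fin (n + 1) → ℂ) = ((g z).rep 0)⁻¹ • (g z).rep := by
  have hcne : ∀ x : Fin n → ℂ, (Fin.cons 1 x : Fin (n + 1) → ℂ) ≠ 0 := fun x h0 => by
    have := congrFun h0 0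
    rw [Fin.cons_zero] at this
    exact one_ne_zero this
  obtain ⟨g, hg⟩ : ∃ g : ℂ → ℙ ℂ (Fin (n + 1) → ℂ), ∀ z,
      g z = Projectivization.mk ℂ (Fin.cons 1 (f z)) (hcne _) := ⟨_, fun _ => rfl⟩
  refine ⟨g, ⟨fun z => ⟨Set.univ, fun w => Fin.cons 1 (f w), isOpen_univ, Set.mem_univ _, ?_,
      fun w _ => ⟨hcne _, hg w⟩⟩, fun z => ?_⟩, fun z => ?_⟩
  · rw [differentiableOn_univ, differentiable_pi]
    intro j
    refine Fin.cases ?_ (fun j => ?_) j
    · simp only [Fin.cons_zero]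
      exact differentiable_const _
    · simp only [Fin.cons_succ]
      exact hf j
  · obtain ⟨c, hc, hrep⟩ := rep_mk (h := hcne (f z))
    rw [hg, hrep]
    exact aff_smul hF (hm z) hc
  · obtain ⟨c, hc, hrep⟩ := rep_mk (h := hcne (f z))
    rw [hg, hrep, Pi.smul_apply, Fin.cons_zero, smul_eq_mul, mul_one, smul_smul,
      inv_mul_cancel₀ hc, one_smul]

/-- limits in projective and affine space -/
theorem mem_closure_aff {S : Set (ℙ ℂ (Fin (n + 1) → ℂ))} {T : Set (Fin n → ℂ)}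
    (hST : ∀ q ∈ S, ∃ x ∈ T, q.rep 0 ≠ 0 ∧ (Fin.cons 1 x : Fin (n + 1) → ℂ) = (q.rep 0)⁻¹ • q.rep)
    {p : ℙ ℂ (Fin (n + 1) → ℂ)} {x : Fin n → ℂ} (hp0 : p.rep 0 ≠ 0)
    (hx : (Fin.cons 1 x : Fin (n + 1) → ℂ) = (p.rep 0)⁻¹ • p.rep)
    (hlim : ∀ ε > 0, ∃ q ∈ S, projDist p q < ε) : x ∈ closure T := by
  have h1 : Phi p.rep ∈ closure ((fun q : ℙ ℂ (Fin (n + 1) → ℂ) => Phi q.rep) '' S) := by
    rw [Metric.mem_closure_iff]
    intro ε hε
    obtain ⟨q, hq, hd⟩ := hlim ε hε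
    refine ⟨_, ⟨q, hq, rfl⟩, ?_⟩
    rw [dist_eq_norm]
    exact hd
  have hM : Phi p.rep 0 0 ≠ 0 := by
    intro h0
    have h2 := chart_Phi p.rep_nonzero hp0
    have h3 := congrFun h2 0
    unfold Pool.Agent.Y190.OP.chart at h3
    rw [h0, div_zero, Pi.smul_apply, smul_eq_mul, inv_mul_cancel₀ hp0] at h3
    exact zero_ne_one h3
  have hcont : ContinuousAt (fun M : Mat (n + 1) => fun j : Fin n => chart 0 M j.succ) (Phi p.rep) := by
    have c1 : ∀ i j : Fin (n + 1), Continuous fun M : Fin (n + 1) → Fin (n + 1) → ℂ => M i j :=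
      fun i j => (continuous_apply j).comp (continuous_apply i)
    rw [continuousAt_pi]
    intro j
    exact (c1 j.succ 0).continuousAt.div (c1 0 0).continuousAt hM
  have h2 := mem_closure_image hcont h1
  have e1 : (fun j : Fin n => chart 0 (Phi p.rep) j.succ) = x := by
    funext j
    rw [chart_Phi p.rep_nonzero hp0, ← hx, Fin.cons_succ]
  rw [e1] at h2
  refine closure_mono ?_ h2
  rintro _ ⟨_, ⟨q, hq, rfl⟩, rfl⟩
  obtain ⟨x', hx', hq0, he⟩ := hST q hq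
  have e2 : (fun j : Fin n => chart 0 (Phi q.rep) j.succ) = x' := by
    funext j
    rw [chart_Phi q.rep_nonzero hq0, ← he, Fin.cons_succ]
  change (fun j : Fin n => chart 0 (Phi q.rep) j.succ) ∈ T
  rw [e2]
  exact hx'

/-- A weak form of condition (i) for `V` and `V'`: for every entire curve `f` in `V` the closure of
the image of `f` contains the image of an entire curve `h` in `V'`, or (the closure in projective
space) the image of an entire curve in a stratum of the boundary. -/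
def LimitIn {R A ι : Type} [CommRing R] (φ : R →+* ℂ) (I I' : Ideal (MvPolynomial (Fin n) R))
    (F : Set (MvPolynomial (Fin (n + 1)) ℂ)) (P : A → ι → MvPolynomial (Fin (n + 1)) ℂ) : Prop :=
  ∀ f : ℂ → Fin n → ℂ, (∀ j, Differentiable ℂ (fun z => f z j)) → (∀ z, IsPt φ I (f z)) →
    (∃ z z', f z ≠ f z') →
    (∃ h : ℂ → Fin n → ℂ, (∀ j, Differentiable ℂ (fun z => h z j)) ∧
      (∀ z, IsPt φ I (h z)) ∧ (∀ z, IsPt φ I' (h z)) ∧ (∃ z z', h z ≠ h z') ∧
      ∀ z, h z ∈ closure (Set.range f)) ∨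
    ∃ (J : Set A) (h : ℂ → ℙ ℂ (Fin (n + 1) → ℂ)), J.Nonempty ∧
      CurveIn (Stratum (fam F) P J) h ∧ ¬ IsConst h ∧ ∀ z, ∀ ε > 0, ∃ w,
        projDist (h z) (Projectivization.mk ℂ (Fin.cons 1 (f w) : Fin (n + 1) → ℂ)
          (fun h0 => one_ne_zero (congrFun h0 0))) < ε

theorem const_iff {f : ℂ → ℙ ℂ (Fin (n + 1) → ℂ)} {g : ℂ → Fin n → ℂ} (h0 : ∀ z, (f z).rep 0 ≠ 0)
    (hg : ∀ z, (Fin.cons 1 (g z) : Fin (n + 1) → ℂ) = ((f z).rep 0)⁻¹ • (f z).rep) :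
    IsConst f ↔ ∀ z z', g z = g z' := by
  constructor
  · intro h z z'
    have h1 := hg z
    rw [h z z', ← hg z'] at h1
    exact Fin.cons_right_injective (α := fun _ => ℂ) (1 : ℂ) h1
  · intro h z w
    rw [← (f z).mk_rep, ← (f w).mk_rep, Projectivization.mk_eq_mk_iff']
    refine ⟨(f z).rep 0 / (f w).rep 0, ?_⟩
    have h1 := hg z
    rw [h z w, hg w] at h1
    rw [div_eq_mul_inv, mul_smul, h1, smul_smul, mul_inv_cancel₀ (h0 z), one_smul]

variable {R : Type} [CommRing R] {φ : R →+* ℂ} {I I' : Ideal (MvPolynomial (Fin n) R)}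
  {A ι : Type} {P : A → ι → MvPolynomial (Fin (n + 1)) ℂ}

/-- **Limits of entire curves** -/
theorem limit_in [Finite A] (hb : Boundary F P) (hF : ∀ G ∈ F, IsForm G) (hT : MapsToTori F)
    (hFI : ∀ x : Fin n → ℂ, (Fin.cons 1 x : Fin (n + 1) → ℂ) ∈ Aff F ↔ IsPt φ I x)
    (hgm : GmCurvesIn φ I I') : LimitIn φ I I' F P := by
  rintro f hf hI ⟨z, z', hne⟩
  obtain ⟨g, hg, hgf⟩ := proj_curve hF hf fun z => (hFI _).2 (hI z)
  have hgnc : ¬ IsConst g := fun hc => hne ((const_iff (fun z => (hg.2 z).2) hgf).1 hc z z')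
  rcases exists_gm_curve hb hF hT hg hgnc with ⟨J, h, hJ, h1, h2, h3⟩ |
    ⟨h, h1, h2, h3, l, p, h4, h5, h6⟩
  · right
    refine ⟨J, h, hJ, h1, h2, fun z ε hε => ?_⟩
    obtain ⟨w, hw⟩ := h3 z ε hε
    refine ⟨w, ?_⟩
    have h4 : Projectivization.mk ℂ (Fin.cons 1 (f w) : Fin (n + 1) → ℂ)
        (fun h0 => one_ne_zero (congrFun h0 0)) = g w := by
      rw [← (g w).mk_rep, Projectivization.mk_eq_mk_iff']
      exact ⟨_, (hgf w).symm⟩
    rw [h4]
    exact hw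
  left
  obtain ⟨k, hk1, hk2⟩ := aff_curve h1
  have hh0 : ∀ z, (h z).rep 0 ≠ 0 := fun z => (h1.2 z).2
  refine ⟨k, hk1, fun z => ?_, fun z => ?_, ?_, fun z => ?_⟩
  · rw [← hFI, hk2]
    exact aff_smul hF (h1.2 z) (inv_ne_zero (hh0 z))
  · rw [isPt_iff]
    intro G hG
    have h7 : ∀ u : ℂ, u ≠ 0 → val (Fin.cons 1 (gm l p u) : Fin (n + 1) → ℂ) (hmg G) = 0 := by
      intro u hu
      have h8 := hgm l p (fun v hv => (hFI _).1 (h4 v hv)) h5 u hu
      rw [isPt_iff] at h8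
      change aeval _ (hmg G) = 0
      rw [hmg_aeval (by rw [Fin.cons_zero]; exact one_ne_zero)]
      have h9 : (fun j : Fin n => (Fin.cons 1 (gm l p u) : Fin (n + 1) → ℂ) j.succ /
          (Fin.cons 1 (gm l p u) : Fin (n + 1) → ℂ) 0) = gm l p u := by
        funext j
        rw [Fin.cons_succ, Fin.cons_zero, div_one]
      rw [h9, aeval_eq_eval]
      change _ * eval (gm l p u) G = 0
      rw [h8 G hG, mul_zero]
    have h8 := h6 (hmg G) ⟨_, hmg_form G⟩ h7 z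
    change aeval (h z).rep (hmg G) = 0 at h8
    rw [hmg_aeval (hh0 z)] at h8
    have h9 : (fun j : Fin n => (h z).rep j.succ / (h z).rep 0) = k z := by
      funext j
      have h10 := congrFun (hk2 z) j.succ
      rw [Fin.cons_succ, Pi.smul_apply, smul_eq_mul] at h10
      rw [h10, div_eq_inv_mul]
    rw [h9, aeval_eq_eval] at h8
    exact (mul_eq_zero.1 h8).resolve_left (pow_ne_zero _ (hh0 z))
  · by_contra hcon
    push Not at hcon
    exact h2 ((const_iff hh0 hk2).2 hcon)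
  · refine mem_closure_aff (S := Set.range g) (T := Set.range f) ?_ (hh0 z) (hk2 z) fun ε hε => ?_
    · rintro _ ⟨w, rfl⟩
      exact ⟨f w, ⟨w, rfl⟩, (hg.2 w).2, hgf w⟩
    · obtain ⟨w, hw⟩ := h3 z ε hε
      exact ⟨g w, ⟨w, rfl⟩, hw⟩

/-- **Affine schemes over number fields** -/
theorem main {F₀ : Type} [Field F₀] [NumberField F₀] (ε : F₀ →+* ℂ)
    (I I' : Ideal (MvPolynomial (Fin n) (𝓞 F₀))) (hF : ∀ G ∈ F, IsForm G)
    (hFI : ∀ x : Fin n → ℂ, (Fin.cons 1 x : Fin (n + 1) → ℂ) ∈ Aff F ↔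
      IsPt (ε.comp (algebraMap (𝓞 F₀) F₀)) I x) [Finite A] (hT : MapsToTori F) :
    (Boundary F P → CondII I I' → LimitIn (ε.comp (algebraMap (𝓞 F₀) F₀)) I I' F P) ∧
    (HypBoundary F P → GmCurvesIn (ε.comp (algebraMap (𝓞 F₀) F₀)) (I ⊔ I') ⊤ →
      [CondI ε I I', CondI ε I ⊤, KobHyp F, HypEmbedded F,
        GmCurvesIn (ε.comp (algebraMap (𝓞 F₀) F₀)) I I', CondIIHol I I', CondIIPer I I'].TFAE ∧
      (CondII I I' → CondI ε I I')) := by
  have hol := Pool.Agent.Results.MP_e97a4d_nt.HolonomicEquivalence.result ε I I'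
  have hhg : CondIHol ε I I' → GmCurvesIn (ε.comp (algebraMap (𝓞 F₀) F₀)) I I' :=
    (hol.1.out 0 3).1
  refine ⟨fun hb h => limit_in hb hF hT hFI (hhg (hol.2.2 h)), fun hb hI' => ?_⟩
  have hB : BrodyHyp (Aff F) ↔ CondI ε I ⊤ := brody_iff hF hFI
  have h12 : CondI ε I I' → CondIHol ε I I' := fun h f h1 _ h2 h3 => h f h1 h2 h3
  have hgm : GmCurvesIn (ε.comp (algebraMap (𝓞 F₀) F₀)) I I' → CondI ε I ⊤ := by
    intro h
    rw [← hB]
    refine brody_tori hb hF ((noGm_iff hFI).2 fun l p h1 h2 => ?_) hT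
    exact hI' l p (fun u hu => isPt_sup (h1 u hu) (h l p h1 h2 u hu)) h2
  have htop : CondI ε I ⊤ → CondI ε I I' := fun h f h1 h2 h3 z => isPt_of_top (h f h1 h2 h3 z)
  have hemb : CondI ε I ⊤ → HypEmbedded F := fun h => embedded_of_brody hF hb (hB.2 h)
  refine ⟨?_, fun h => htop (hgm (hhg (hol.2.2 h)))⟩
  tfae_have 1 → 5 := fun h => hhg (h12 h)
  tfae_have 5 → 2 := hgm
  tfae_have 2 → 1 := htop
  tfae_have 2 → 4 := hemb
  tfae_have 4 → 3 := kob_of_embedded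
  tfae_have 3 → 2 := fun h => hB.1 (Pool.Agent.U647.IS.brody_of_kob h)
  tfae_have 5 → 6 := (hol.1.out 3 1).1
  tfae_have 6 → 7 := (hol.1.out 1 2).1
  tfae_have 7 → 5 := (hol.1.out 2 3).1
  tfae_finish

end Pool.Agent.U647.AF
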