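import Mathlib

/-!
# The implicit function theorem for one equation, and the density of the complement of a hypersurface
-/

set_option autoImplicit false

open Filter Topology MvPolynomial
open scoped ContDiff

namespace Pool.Agent.U647.AF

/-- the implicit function theorem -/
theorem ift {E : Type} [NormedAddCommGroup E] [NormedSpace ℂ E] [CompleteSpace E] {f : E × ℂ → ℂ}
    {u : E × ℂ} (hf : AnalyticAt ℂ f u) (hd : fderiv ℂ f u (0, 1) ≠ 0) (h0 : f u = 0) :
    ∃ τ : E → ℂ, AnalyticAt ℂ τ u.1 ∧ τ u.1 = u.2 ∧ (∀ᶠ x in 𝓝 u.1, f (x, τ x) = 0) ∧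
      ∀ᶠ v in 𝓝 u, f v = 0 → τ v.1 = v.2 := by
  have hcd : ContDiffAt ℂ ω f u := hf.contDiffAt
  have hinv : (fderiv ℂ f u ∘L .inr ℂ E ℂ).IsInvertible := by
    refine ⟨ContinuousLinearEquiv.unitsEquivAut ℂ (Units.mk0 _ hd), ?_⟩
    ext
    simp
  have hne : (ω : ℕ∞ω) ≠ 0 := by simp
  refine ⟨hcd.implicitFunction hne hinv, (hcd.contDiffAt_implicitFunction hne hinv).analyticAt,
    hcd.implicitFunction_apply_self hne hinv, ?_, ?_⟩
  · filter_upwards [hcd.eventually_apply_implicitFunction hne hinv] with x hx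
    rw [hx, h0]
  · filter_upwards [hcd.eventually_apply_eq_iff_implicitFunction hne hinv] with v hv hv0
    exact hv.1 (by rw [hv0, h0])

/-- the complement of a hypersurface is dense -/
theorem dense_ne {w : ℕ} {s : MvPolynomial (Fin w) ℂ} (hs : s ≠ 0) :
    Dense {z : Fin w → ℂ | eval z s ≠ 0} := by
  rw [dense_iff_inter_open]
  intro U hU ⟨z0, hz0⟩
  by_contra hcon
  rw [Set.not_nonempty_iff_eq_empty] at hcon
  obtain ⟨ε, hε, hball⟩ := Metric.isOpen_iff.1 hU z0 hz0
  apply hs
  apply MvPolynomial.funext_set (fun i => Metric.ball (z0 i) ε)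
  · intro i
    exact infinite_of_mem_nhds (z0 i) (Metric.ball_mem_nhds _ hε)
  · intro x hx
    rw [map_zero]
    by_contra hne
    have h1 : x ∈ U := hball (by
      rw [Metric.mem_ball, dist_pi_lt_iff hε]
      exact fun i => hx i trivial)
    have h2 : x ∈ U ∩ {z : Fin w → ℂ | eval z s ≠ 0} := ⟨h1, hne⟩
    rw [hcon] at h2
    exact h2

end Pool.Agent.U647.AF
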