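import Pool.Agent.U647.AF.Crv
import Pool.Agent.U647.AF.Aff
import Pool.Agent.Q96.LS.Cur
import Pool.Agent.TH143.LG.Laur
import Pool.Agent.TH143.HE.Cur

/-!
# Curves of bounded derivative in affine varieties
-/

set_option autoImplicit false

open Filter Topology MvPolynomial LinearAlgebra.Projectivization FF

namespace Pool.Agent.U647.AF

open Pool.Agent.W602.GT (IsForm val Cone SubVar coords VarPts LogGeneralType)
open Pool.Agent.N154.TB (Zeros CurveIn IsConst)
open Pool.Agent.N154.TC (Compl bounded_of_lip)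
open Pool.Agent.N154.GG (projDist holP_of proj_ext)
open Pool.Agent.N155 (StratumCentre HasCentre Ctr exists_closure nz nz_Phi Cv SG TX strat_curve
  finite_noncentre)
open Pool.Agent.Y190.OP (Phi HolP)
open Pool.Agent.W603.LV (canDeg)
open Pool.Agent.TH143.HE (gm)

variable {n : ℕ} {ι ι'' A : Type} {F : ι → MvPolynomial (Fin (n + 1)) ℂ}
  {P : A → ι'' → MvPolynomial (Fin (n + 1)) ℂ}

/-- All closed subvarieties of the affine variety `{Q = 0, x₀ ≠ 0}` have dimension at most one. -/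
def AtMostCurves {κ : Type} (Q : κ → MvPolynomial (Fin (n + 1)) ℂ) : Prop :=
  ∀ (K : Type) [Field K] [Algebra ℂ K] (w : ℕ) (y : Fin (n + 1) → K), SubVar Q K w y →
    y 0 ≠ 0 → w ≤ 1

theorem strat_finite [Finite A] (hPf : ∀ a i, IsForm (P a i)) {K : Type} [Field K] [Algebra ℂ K]
    [IsFF ℂ K] {y : Fin (n + 1) → K} (hy0 : y ≠ 0) :
    {Q : Place ℂ K | ¬ StratumCentre P y Q}.Finite := by
  have h1 : ∀ a, {Q : Place ℂ K | (∃ l, val y (P a l) ≠ 0) ∧ ¬ HasCentre (P a) y Q}.Finite := by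
    intro a
    by_cases ha : ∃ l, val y (P a l) ≠ 0
    · obtain ⟨l, hl⟩ := ha
      exact (finite_noncentre (hPf a) hy0 hl).subset fun P hP => hP.2
    · convert Set.finite_empty
      ext P
      simp only [Set.mem_ofPred_eq, Set.mem_empty_iff_false, iff_false]
      exact fun h => ha h.1
  apply (Set.finite_iUnion h1).subset
  intro Q hQ
  have h2 : ∃ a, (∃ l, val y (P a l) ≠ 0) ∧ ¬ HasCentre (P a) y Q := by
    by_contra hcon
    push Not at hcon
    exact hQ fun a ha => hcon a ha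
  obtain ⟨a, ha⟩ := h2
  exact Set.mem_iUnion.2 ⟨a, ha⟩

/-- **Curves of bounded derivative in one-dimensional subsets of affine varieties**: the variety
contains the image of the punctured line under a nonconstant morphism. -/
theorem gm_of_low [Finite A] (hF : ∀ i, IsForm (F i)) (hPf : ∀ a i, IsForm (P a i))
    (hx0 : ∀ x ∈ Compl F P, x 0 ≠ 0) (hcl : ∀ x ∈ Cone F, x 0 ≠ 0 → x ∈ Compl F P)
    {κ : Type} {Q : κ → MvPolynomial (Fin (n + 1)) ℂ} (hQ : ∀ i, IsForm (Q i)) (hlow : AtMostCurves Q)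
    {h : ℂ → ℙ ℂ (Fin (n + 1) → ℂ)} (hh : CurveIn (Compl F P) h) (hnc : ¬ IsConst h)
    (hlip : ∀ z w, projDist (h z) (h w) ≤ 2 * ‖z - w‖) (hQm : ∀ z i, val (h z).rep (Q i) = 0) :
    ∃ (l : ℕ) (p : Fin n → Polynomial ℂ),
      (∀ u : ℂ, u ≠ 0 → (Fin.cons 1 (gm l p u) : Fin (n + 1) → ℂ) ∈ Compl F P) ∧
      (∃ u : ℂ, u ≠ 0 ∧ gm l p u ≠ gm l p 1) ∧
      ∀ G : MvPolynomial (Fin (n + 1)) ℂ, IsForm G →
        (∀ u : ℂ, u ≠ 0 → val (Fin.cons 1 (gm l p u) : Fin (n + 1) → ℂ) G = 0) →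
          ∀ z, val (h z).rep G = 0 := by
  classical
  have hol := holP_of hh.1
  obtain ⟨φ, hφ⟩ : ∃ φ, φ = fun z => Phi (h z).rep := ⟨_, rfl⟩
  rw [← hφ] at hol
  obtain ⟨K1, _, _, w, y1, hy1, hgen, hw, hrel, hw0⟩ := exists_closure hol
  have hnz : ∀ G : MvPolynomial (Fin (n + 1)) ℂ, IsForm G → ∀ z,
      (nz G (φ z) ↔ val (h z).rep G ≠ 0) := by
    rintro G ⟨d, hd⟩ z
    rw [hφ]
    change nz G (Phi (h z).rep) ↔ _
    rw [nz_Phi hd (h z).rep_nonzero, val_ev]
  have hrel' : ∀ G : MvPolynomial (Fin (n + 1)) ℂ, IsForm G →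
      (val y1 G = 0 ↔ ∀ z, val (h z).rep G = 0) := by
    intro G hG
    rw [hrel G hG]
    exact forall_congr' fun z => by rw [hnz G hG z, not_not]
  have hsub : SubVar Q K1 w y1 :=
    ⟨hy1, fun i => (hrel' _ (hQ i)).2 fun z => hQm z i, hgen, hw⟩
  have hy00 : y1 0 ≠ 0 := by
    intro h0
    have h1 := (hrel' (X 0) ⟨1, isHomogeneous_X _ _⟩).1 (by
      unfold Pool.Agent.W602.GT.val
      rw [aeval_X, h0]) 0
    rw [val_ev, eval_X] at h1
    exact hx0 _ (hh.2 0) h1
  have hw1 : w = 1 := by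
    have h1 := hlow K1 w y1 hsub hy00
    rcases Nat.lt_or_ge 0 w with h2 | h2
    · omega
    · exfalso
      apply hnc
      intro z z'
      have h3 := hw0 (by omega)
      apply proj_ext
      have h4 := (h3 z).trans (h3 z').symm
      rw [hφ] at h4
      exact h4
  subst hw1
  have hyF : ∀ i, val y1 (F i) = 0 := fun i => (hrel' _ (hF i)).2 fun z => (hh.2 z).1.2 i
  have hcv : Cv y1 φ := by
    refine ⟨hol, fun z => ⟨(h z).rep, ⟨(h z).rep_nonzero, fun G hG h0 => ?_⟩, by rw [hφ]⟩,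
      fun G hG hv => ?_⟩
    · exact (hrel' G hG).1 h0 z
    · by_contra hcon
      push Not at hcon
      exact hv ((hrel G hG).2 hcon)
  have hoff : ∀ a z, ∃ l, val (h z).rep (P a l) ≠ 0 := by
    intro a z
    by_contra hcon
    push Not at hcon
    exact (hh.2 z).2 a hcon
  have hne : ∀ a, ∃ l, val y1 (P a l) ≠ 0 := by
    intro a
    obtain ⟨l, hl⟩ := hoff a 0
    exact ⟨l, fun h0 => hl ((hrel' _ (hPf a l)).1 h0 0)⟩
  have hav : ∀ a, (∀ z, φ z ∈ SG (P a)) ∨ ∀ z, φ z ∉ SG (P a) := fun a => Or.inl fun z => by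
    obtain ⟨l, hl⟩ := hoff a z
    exact ⟨l, (hnz _ (hPf a l) z).2 hl⟩
  have hB : ∀ z, ‖fderiv ℝ φ z‖ ≤ 2 := bounded_of_lip fun z w => by
    rw [hφ]
    exact hlip z w
  have hnl := strat_curve hPf hgen hcv hav hB
  have hff : IsFF ℂ K1 := ⟨Pool.Agent.TH143.GT.ess_of_coords hgen, by rw [hw, Nat.cast_one]⟩
  have hfin := strat_finite hPf hy1
  obtain ⟨S, hS⟩ : ∃ S : Finset (Place ℂ K1), ∀ Q, Q ∈ S ↔ ¬ StratumCentre P y1 Q :=
    ⟨hfin.toFinset, fun Q => by simp⟩
  have hcan : canDeg ℂ K1 + S.card ≤ 0 := by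
    by_contra hcon
    apply hnl
    have h1 := Pool.Agent.Q96.LS.lgt_one S (by omega)
    have h2 : (fun Q => Q ∈ S) = fun Q => ¬ StratumCentre P y1 Q := by
      funext Q
      exact propext (hS Q)
    rwa [h2] at h1
  -- the coordinates are not constant
  have hnconst : ¬ ∀ j, ∃ c : ℂ, y1 j / y1 0 = algebraMap ℂ K1 c := by
    intro hc
    choose c hc using hc
    apply hnc
    have h1 : ∀ z j, (h z).rep j = c j * (h z).rep 0 := by
      intro z j
      have h2 : IsForm (X j - C (c j) * X 0 : MvPolynomial (Fin (n + 1)) ℂ) :=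
        ⟨1, (isHomogeneous_X _ _).sub (by
          have := (isHomogeneous_C (Fin (n + 1)) (c j)).mul (isHomogeneous_X ℂ (0 : Fin (n + 1)))
          rwa [zero_add] at this)⟩
      have h3 := (hrel' _ h2).1 (by
        unfold Pool.Agent.W602.GT.val
        rw [map_sub, map_mul, aeval_X, aeval_X, aeval_C, ← hc j, div_mul_cancel₀ _ hy00, sub_self]) z
      rw [val_ev, map_sub, map_mul, eval_X, eval_X, eval_C, sub_eq_zero] at h3
      exact h3
    intro z w
    have hz := hx0 _ (hh.2 z)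
    have hw := hx0 _ (hh.2 w)
    rw [← (h z).mk_rep, ← (h w).mk_rep, Projectivization.mk_eq_mk_iff']
    refine ⟨(h z).rep 0 / (h w).rep 0, ?_⟩
    funext j
    rw [Pi.smul_apply, smul_eq_mul, h1 z j, h1 w j]
    field_simp
  have hregS : ∀ Q, Q ∉ S → ∀ j, Q.Reg (y1 j / y1 0) := by
    intro Q hQS
    have h1 : StratumCentre P y1 Q := by
      by_contra hcon
      exact hQS ((hS Q).2 hcon)
    exact (reg_of_centre hF hx0 hy1 hyF fun a => h1 a (hne a)).2
  have hSne : S.Nonempty := by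
    by_contra hcon
    rw [Finset.not_nonempty_iff_eq_empty] at hcon
    apply hnconst
    intro j
    exact const_of_reg fun Q => hregS Q (by rw [hcon]; simp) j
  obtain ⟨t, ht, hlau⟩ := Pool.Agent.TH143.LG.laurent hSne hcan
  have htr : Transcendental ℂ t := Pool.Agent.W619.PQ.transcendental_of_top ht
  have hlj : ∀ j, ∃ (l : ℕ) (p : Polynomial ℂ), y1 j / y1 0 * t ^ l = Polynomial.aeval t p := by
    intro j
    apply hlau
    intro Q hQ
    by_contra hcon
    have h1 := hregS Q hcon j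
    by_cases h0 : y1 j / y1 0 = 0
    · rw [h0, Q.ord_zero] at hQ
      exact lt_irrefl _ hQ
    · have := (Q.reg_iff h0).1 h1
      omega
  choose l p hp using hlj
  obtain ⟨m, hm⟩ : ∃ m : ℕ, ∀ j, l j ≤ m :=
    ⟨∑ j, l j, fun j => Finset.single_le_sum (f := l) (fun _ _ => Nat.zero_le _) (Finset.mem_univ j)⟩
  obtain ⟨q, hq⟩ : ∃ q : Fin (n + 1) → Polynomial ℂ, ∀ j,
      y1 j / y1 0 * t ^ m = Polynomial.aeval t (q j) := by
    refine ⟨fun j => p j * Polynomial.X ^ (m - l j), fun j => ?_⟩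
    rw [map_mul, map_pow, Polynomial.aeval_X, ← hp j, mul_assoc, ← pow_add, Nat.add_sub_cancel' (hm j)]
  have ht0 : t ≠ 0 := by
    rintro rfl
    exact htr isAlgebraic_zero
  have hinj : ∀ a b : Polynomial ℂ, Polynomial.aeval t a = Polynomial.aeval t b → a = b :=
    fun a b hab => (transcendental_iff_injective.1 htr) hab
  have hq0 : q 0 = Polynomial.X ^ m := by
    apply hinj
    rw [← hq 0, div_self hy00, one_mul, map_pow, Polynomial.aeval_X]
  -- the point over the polynomials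
  have hqF : ∀ i, aeval q (F i) = 0 := by
    intro i
    obtain ⟨d, hd⟩ := hF i
    apply hinj
    rw [map_zero, MvPolynomial.comp_aeval_apply]
    have h1 : (fun j => Polynomial.aeval t (q j)) = fun j => (t ^ m / y1 0) * y1 j := by
      funext j
      rw [← hq j]
      ring
    change aeval (fun j => Polynomial.aeval t (q j)) (F i) = 0
    rw [h1, Pool.Agent.N155.aeval_smul' hd]
    have h2 := hyF i
    unfold Pool.Agent.W602.GT.val at h2
    rw [h2, mul_zero]
  have hev : ∀ (u : ℂ) (B : MvPolynomial (Fin (n + 1)) ℂ),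
      eval (fun j => (q j).eval u) B = (aeval q B).eval u := by
    intro u B
    have h1 : (Polynomial.evalRingHom u).comp (aeval q : MvPolynomial (Fin (n + 1)) ℂ →ₐ[ℂ] Polynomial ℂ).toRingHom =
        eval (fun j => (q j).eval u) := by
      apply MvPolynomial.ringHom_ext
      · intro c
        simp
      · intro j
        simp
    exact (RingHom.congr_fun h1 B).symm
  have hpt : ∀ u : ℂ, u ≠ 0 → (Fin.cons 1 (gm m (fun j => q j.succ) u) : Fin (n + 1) → ℂ) =
      (u ^ m)⁻¹ • fun j => (q j).eval u := by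
    intro u hu
    funext j
    refine Fin.cases ?_ (fun j => ?_) j
    · rw [Fin.cons_zero, Pi.smul_apply, smul_eq_mul, hq0, Polynomial.eval_pow, Polynomial.eval_X,
        inv_mul_cancel₀ (pow_ne_zero _ hu)]
    · rw [Fin.cons_succ, Pi.smul_apply, smul_eq_mul]
      unfold Pool.Agent.TH143.HE.gm
      rw [div_eq_inv_mul]
  refine ⟨m, fun j => q j.succ, fun u hu => hcl _ ⟨?_, fun i => ?_⟩ ?_, ?_, ?_⟩
  · intro h0
    have := congrFun h0 0
    rw [Fin.cons_zero] at this
    exact one_ne_zero this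
  · obtain ⟨d, hd⟩ := hF i
    rw [hpt u hu, val_ev, ev_smul hd, hev, hqF, Polynomial.eval_zero, mul_zero]
  · rw [Fin.cons_zero]
    exact one_ne_zero
  · by_contra hcon
    push Not at hcon
    apply hnconst
    intro j
    refine Fin.cases ?_ (fun j => ?_) j
    · exact ⟨1, by rw [div_self hy00, map_one]⟩
    · have h1 := (Pool.Agent.TH143.HE.gm_const_iff m (fun j => q j.succ)).1 hcon j
      refine ⟨(q j.succ).coeff m, ?_⟩
      have h2 : q j.succ = Polynomial.C ((q j.succ).coeff m) * Polynomial.X ^ m := by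
        ext i
        rw [Polynomial.coeff_C_mul, Polynomial.coeff_X_pow]
        by_cases hi : i = m
        · subst hi
          simp
        · rw [if_neg hi, mul_zero]
          exact h1 i hi
      have h3 := hq j.succ
      rw [h2, map_mul, map_pow, Polynomial.aeval_X, Polynomial.aeval_C] at h3
      exact mul_right_cancel₀ (pow_ne_zero m ht0) h3
  · rintro G ⟨d, hd⟩ hG
    refine (hrel' G ⟨d, hd⟩).1 ?_
    have h1 : aeval q G = 0 := by
      apply Polynomial.eq_zero_of_infinite_isRoot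
      refine Set.Infinite.mono (s := {u : ℂ | u ≠ 0}) (fun u hu => ?_)
        (Set.finite_singleton (0 : ℂ)).infinite_compl
      have h2 := hG u hu
      rw [hpt u hu, val_ev, ev_smul hd, hev] at h2
      exact (mul_eq_zero.1 h2).resolve_left (pow_ne_zero _ (inv_ne_zero (pow_ne_zero _ hu)))
    have h2 := congrArg (Polynomial.aeval t) h1
    rw [map_zero, MvPolynomial.comp_aeval_apply] at h2
    have h3 : (fun j => Polynomial.aeval t (q j)) = fun j => (t ^ m / y1 0) * y1 j := by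
      funext j
      rw [← hq j]
      ring
    change aeval (fun j => Polynomial.aeval t (q j)) G = 0 at h2
    rw [h3, Pool.Agent.N155.aeval_smul' hd] at h2
    exact (mul_eq_zero.1 h2).resolve_left (pow_ne_zero _ (div_ne_zero (pow_ne_zero _ ht0) hy00))

end Pool.Agent.U647.AF
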