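import Pool.Agent.U647.AF.Ift
import Pool.Agent.U647.AF.Alg
import Pool.Agent.N154.GG.Defs
import Pool.Agent.N155.L.Omn

/-!
# Irreducible affine varieties are generically complex manifolds
-/

set_option autoImplicit false

open Filter Topology

namespace Pool.Agent.U647.AF

open Pool.Agent.W602.GT (IsForm val SubVar coords VarPts)
open Pool.Agent.N154.GG (GraphAt)

variable {n w : ℕ}

/-! ### homogenization -/

/-- homogenization -/
noncomputable def hmg (g : MvPolynomial (Fin n) ℂ) : MvPolynomial (Fin (n + 1)) ℂ :=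
  ∑ i ∈ Finset.range (g.totalDegree + 1), MvPolynomial.X 0 ^ (g.totalDegree - i) *
    MvPolynomial.rename Fin.succ (MvPolynomial.homogeneousComponent i g)

theorem hmg_form (g : MvPolynomial (Fin n) ℂ) : (hmg g).IsHomogeneous g.totalDegree := by
  unfold hmg
  apply MvPolynomial.IsHomogeneous.sum
  intro i hi
  have h1 : g.totalDegree - i + i = g.totalDegree := Nat.sub_add_cancel (by
    rw [Finset.mem_range] at hi
    omega)
  have h2 := ((MvPolynomial.isHomogeneous_X ℂ (0 : Fin (n + 1))).pow (g.totalDegree - i)).mul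
    ((MvPolynomial.homogeneousComponent_isHomogeneous i g).rename_isHomogeneous (f := Fin.succ))
  rwa [one_mul, h1] at h2

theorem hmg_aeval {K : Type} [Field K] [Algebra ℂ K] {x : Fin (n + 1) → K} (h0 : x 0 ≠ 0)
    (g : MvPolynomial (Fin n) ℂ) : MvPolynomial.aeval x (hmg g) =
      x 0 ^ g.totalDegree * MvPolynomial.aeval (fun j => x (Fin.succ j) / x 0) g := by
  have h1 : ∀ i, MvPolynomial.aeval x (MvPolynomial.rename Fin.succ
      (MvPolynomial.homogeneousComponent i g)) = x 0 ^ i *
        MvPolynomial.aeval (fun j => x (Fin.succ j) / x 0) (MvPolynomial.homogeneousComponent i g) := by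
    intro i
    have h2 : x = fun j => x 0 * (x j / x 0) := by
      funext j
      field_simp
    conv_lhs => rw [h2]
    rw [Pool.Agent.N155.aeval_smul'
      ((MvPolynomial.homogeneousComponent_isHomogeneous i g).rename_isHomogeneous (f := Fin.succ)),
      MvPolynomial.aeval_rename]
    rfl
  unfold hmg
  rw [map_sum]
  have h3 : ∀ i ∈ Finset.range (g.totalDegree + 1), MvPolynomial.aeval x
      (MvPolynomial.X 0 ^ (g.totalDegree - i) * MvPolynomial.rename Fin.succ
        (MvPolynomial.homogeneousComponent i g)) = x 0 ^ g.totalDegree *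
          MvPolynomial.aeval (fun j => x (Fin.succ j) / x 0)
            (MvPolynomial.homogeneousComponent i g) := by
    intro i hi
    rw [map_mul, map_pow, MvPolynomial.aeval_X, h1, ← mul_assoc, ← pow_add, Nat.sub_add_cancel (by
      rw [Finset.mem_range] at hi
      omega)]
  rw [Finset.sum_congr rfl h3, ← Finset.mul_sum, ← map_sum, MvPolynomial.sum_homogeneousComponent]

/-! ### evaluation -/

/-- evaluation -/
noncomputable def Ez (z : Fin w → ℂ) (t : ℂ) : Polynomial (MvPolynomial (Fin w) ℂ) →+* ℂ :=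
  Polynomial.eval₂RingHom (MvPolynomial.eval z) t

theorem an_ev {E : Type} [NormedAddCommGroup E] [NormedSpace ℂ E] {g : E → Fin w → ℂ}
    {x : E} (hg : ∀ i, AnalyticAt ℂ (fun z => g z i) x) (s : MvPolynomial (Fin w) ℂ) :
    AnalyticAt ℂ (fun z => MvPolynomial.eval (g z) s) x := by
  induction s using MvPolynomial.induction_on with
  | C a => simpa using analyticAt_const
  | add p q hp hq =>
    simp only [map_add]
    exact hp.add hq
  | mul_X p i hp =>
    simp only [map_mul, MvPolynomial.eval_X]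
    exact hp.mul (hg i)

theorem an_Ez {E : Type} [NormedAddCommGroup E] [NormedSpace ℂ E] {g : E → Fin w → ℂ} {t : E → ℂ}
    {x : E} (hg : ∀ i, AnalyticAt ℂ (fun z => g z i) x) (ht : AnalyticAt ℂ t x)
    (H : Polynomial (MvPolynomial (Fin w) ℂ)) : AnalyticAt ℂ (fun z => Ez (g z) (t z) H) x := by
  induction H using Polynomial.induction_on' with
  | add p q hp hq =>
    simp only [map_add]
    exact hp.add hq
  | monomial k c =>
    have h1 : (fun z => Ez (g z) (t z) (Polynomial.monomial k c)) =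
        fun z => MvPolynomial.eval (g z) c * t z ^ k := by
      funext z
      unfold Ez
      rw [Polynomial.coe_eval₂RingHom, Polynomial.eval₂_monomial]
    rw [h1]
    exact (an_ev hg c).mul (ht.pow k)

theorem Ez_eq (z : Fin w → ℂ) (t : ℂ) (H : Polynomial (MvPolynomial (Fin w) ℂ)) :
    Ez z t H = (H.map (MvPolynomial.eval z)).eval t := by
  unfold Ez
  rw [Polynomial.coe_eval₂RingHom, Polynomial.eval_map]

/-- the derivative -/
theorem fderiv_Ez (z : Fin w → ℂ) (t : ℂ) (H : Polynomial (MvPolynomial (Fin w) ℂ)) :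
    fderiv ℂ (fun p : (Fin w → ℂ) × ℂ => Ez p.1 p.2 H) (z, t) (0, 1) =
      Ez z t (Polynomial.derivative H) := by
  have han : AnalyticAt ℂ (fun p : (Fin w → ℂ) × ℂ => Ez p.1 p.2 H) (z, t) :=
    an_Ez (fun i => ((ContinuousLinearMap.proj (R := ℂ) (φ := fun _ : Fin w => ℂ) i).comp
      (ContinuousLinearMap.fst ℂ (Fin w → ℂ) ℂ)).analyticAt _) analyticAt_snd H
  have h1 : HasDerivAt (fun s : ℂ => ((z, s) : (Fin w → ℂ) × ℂ)) (0, 1) t :=
    (hasDerivAt_const t z).prodMk (hasDerivAt_id t)
  have h2 := han.differentiableAt.hasFDerivAt.comp_hasDerivAt t h1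
  have h3 : HasDerivAt (fun s : ℂ => Ez z s H) (Ez z t (Polynomial.derivative H)) t := by
    rw [Ez_eq, ← Polynomial.derivative_map]
    have h4 : (fun s : ℂ => Ez z s H) = fun s => (H.map (MvPolynomial.eval z)).eval s := by
      funext s
      exact Ez_eq z s H
    rw [h4]
    exact Polynomial.hasDerivAt _ _
  exact h2.unique h3

/-! ### the transcendence basis -/

theorem gen_of_coords {K : Type} [Field K] [Algebra ℂ K] {y : Fin (n + 1) → K} (hy0 : y 0 ≠ 0)
    (hgen : coords ℂ y = ⊤) :
    IntermediateField.adjoin ℂ (Set.range fun j : Fin n => y j.succ / y 0) = ⊤ := by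
  rw [eq_top_iff, ← hgen]
  unfold Pool.Agent.W602.GT.coords
  rw [IntermediateField.adjoin_le_iff]
  have h1 : ∀ i, y i / y 0 ∈
      IntermediateField.adjoin ℂ (Set.range fun j : Fin n => y j.succ / y 0) := by
    intro i
    refine Fin.cases ?_ (fun j => ?_) i
    · rw [div_self hy0]
      exact one_mem _
    · exact IntermediateField.subset_adjoin _ _ ⟨j, rfl⟩
  rintro _ ⟨i, j, hj, rfl⟩
  have h2 : y i / y j = (y i / y 0) / (y j / y 0) := by field_simp
  rw [h2]
  exact div_mem (h1 i) (h1 j)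

theorem exists_J {K : Type} [Field K] [Algebra ℂ K] {a : Fin n → K}
    (hgen : IntermediateField.adjoin ℂ (Set.range a) = ⊤) (hw : Algebra.trdeg ℂ K = w) :
    ∃ J : Fin w → Fin n, AlgebraicIndependent ℂ (fun k => a (J k)) ∧
      Algebra.IsAlgebraic (LJ a J) K := by
  have halg : Algebra.IsAlgebraic (Algebra.adjoin ℂ (Set.range a)) K := by
    constructor
    intro x
    have hx : x ∈ IntermediateField.adjoin ℂ (Set.range a) := by
      rw [hgen]
      trivial
    obtain ⟨r, s, hrs⟩ := (IntermediateField.mem_adjoin_range_iff ℂ _ _).1 hx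
    have hmem : ∀ q : MvPolynomial (Fin n) ℂ, MvPolynomial.aeval a q ∈
        Algebra.adjoin ℂ (Set.range a) := by
      intro q
      rw [Algebra.adjoin_range_eq_range_aeval]
      exact ⟨q, rfl⟩
    by_cases h0 : MvPolynomial.aeval a s = 0
    · rw [hrs, h0, div_zero]
      exact isAlgebraic_zero
    · refine ⟨Polynomial.C (⟨_, hmem s⟩ : Algebra.adjoin ℂ (Set.range a)) * Polynomial.X -
        Polynomial.C ⟨_, hmem r⟩, ?_, ?_⟩
      · intro h1
        have h2 := congrArg (fun p => Polynomial.coeff p 1) h1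
        simp only [Polynomial.coeff_sub, Polynomial.coeff_C_mul, Polynomial.coeff_X_one, mul_one,
          Polynomial.coeff_zero] at h2
        rw [Polynomial.coeff_C, if_neg one_ne_zero, sub_zero] at h2
        exact h0 (congrArg Subtype.val h2)
      · rw [map_sub, map_mul, Polynomial.aeval_C, Polynomial.aeval_C, Polynomial.aeval_X]
        change MvPolynomial.aeval a s * x - MvPolynomial.aeval a r = 0
        rw [hrs]
        field_simp
        ring
  obtain ⟨t, hta, ht⟩ := exists_isTranscendenceBasis_subset (R := ℂ) (Set.range a)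
  have hcard : Cardinal.mk t = w := by
    rw [ht.cardinalMk_eq_trdeg, hw]
  have hfin : Finite t := by
    rw [← Cardinal.lt_aleph0_iff_finite, hcard]
    exact Cardinal.natCast_lt_aleph0
  have : Fintype t := Fintype.ofFinite t
  have hcard2 : Fintype.card t = w := by
    rw [Cardinal.mk_fintype] at hcard
    exact_mod_cast hcard
  obtain ⟨e⟩ : Nonempty (Fin w ≃ t) := ⟨(Fintype.equivFinOfCardEq hcard2).symm⟩
  choose J hJ using fun k => hta (e k).2
  have hb : IsTranscendenceBasis ℂ (fun k => a (J k)) := by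
    have h1 : (fun k => a (J k)) = (Subtype.val : t → K) ∘ e := funext hJ
    rw [h1]
    exact ht.comp_equiv e
  exact ⟨J, hb.1, hb.isAlgebraic_field⟩

/-! ### the graph -/

theorem aeval_cons_form {K : Type} [Field K] [Algebra ℂ K] {G : MvPolynomial (Fin (n + 1)) ℂ}
    {d : ℕ} (hG : G.IsHomogeneous d) (c : K) (v : Fin n → K) :
    MvPolynomial.aeval (Fin.cons c (fun j => c * v j) : Fin (n + 1) → K) G =
      c ^ d * MvPolynomial.aeval (Fin.cons 1 v : Fin (n + 1) → K) G := by
  rw [← Pool.Agent.N155.aeval_smul' hG]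
  congr 1
  congr 1
  funext j
  refine Fin.cases ?_ (fun j => ?_) j
  · rw [Fin.cons_zero, Fin.cons_zero, mul_one]
  · rw [Fin.cons_succ, Fin.cons_succ]

/-- **Irreducible affine varieties are generically complex manifolds.** -/
theorem graph_generic {K : Type} [Field K] [Algebra ℂ K] {y : Fin (n + 1) → K} (hy0 : y 0 ≠ 0)
    (hgen : coords ℂ y = ⊤) (hw : Algebra.trdeg ℂ K = w) :
    ∃ G : MvPolynomial (Fin (n + 1)) ℂ, IsForm G ∧ val y G ≠ 0 ∧
      ∀ x ∈ VarPts ℂ y, x 0 ≠ 0 → val x G ≠ 0 →
        GraphAt {x | x ∈ VarPts ℂ y ∧ x 0 ≠ 0} w x := by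
  classical
  have hchar : CharZero K := charZero_of_injective_algebraMap (algebraMap ℂ K).injective
  obtain ⟨a, ha⟩ : ∃ a : Fin n → K, a = fun j => y j.succ / y 0 := ⟨_, rfl⟩
  have hga : IntermediateField.adjoin ℂ (Set.range a) = ⊤ := by
    rw [ha]
    exact gen_of_coords hy0 hgen
  obtain ⟨J, hJ, halg⟩ := exists_J hga hw
  obtain ⟨N, S, R, P, hS, hR, hP, hP', hdiv⟩ := model hga halg hJ
  obtain ⟨θ, hθ⟩ : ∃ θ, θ = MvPolynomial.aeval a N := ⟨_, rfl⟩
  rw [← hθ] at hR hP hP' hdiv
  have hbS : bv a J S ≠ 0 := by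
    intro h0
    apply hS
    apply hJ
    change bv a J S = bv a J 0
    rw [h0, map_zero]
  -- polynomials in the coordinates
  obtain ⟨qH, hqH⟩ : ∃ qH : Polynomial (MvPolynomial (Fin w) ℂ) → MvPolynomial (Fin n) ℂ,
      ∀ H, qH H = H.eval₂ (MvPolynomial.rename J).toRingHom N := ⟨_, fun _ => rfl⟩
  have hqa : ∀ H, MvPolynomial.aeval a (qH H) = H.eval₂ (bv a J) θ := by
    intro H
    rw [hqH]
    have h1 := Polynomial.hom_eval₂ H (MvPolynomial.rename J : MvPolynomial (Fin w) ℂ →ₐ[ℂ] _).toRingHom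
      (MvPolynomial.aeval a : MvPolynomial (Fin n) ℂ →ₐ[ℂ] K).toRingHom N
    have h2 : ((MvPolynomial.aeval a : MvPolynomial (Fin n) ℂ →ₐ[ℂ] K).toRingHom).comp
        (MvPolynomial.rename J : MvPolynomial (Fin w) ℂ →ₐ[ℂ] _).toRingHom = bv a J := by
      apply RingHom.ext
      intro b
      exact MvPolynomial.aeval_rename _ _ _
    rw [h2] at h1
    rw [hθ]
    exact h1
  have hqb : ∀ (b : Fin n → ℂ) H, MvPolynomial.eval b (qH H) =
      Ez (fun k => b (J k)) (MvPolynomial.eval b N) H := by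
    intro b H
    rw [hqH]
    have h1 := Polynomial.hom_eval₂ H (MvPolynomial.rename J : MvPolynomial (Fin w) ℂ →ₐ[ℂ] _).toRingHom
      (MvPolynomial.eval b) N
    have h2 : (MvPolynomial.eval b).comp
        (MvPolynomial.rename J : MvPolynomial (Fin w) ℂ →ₐ[ℂ] _).toRingHom =
          MvPolynomial.eval (fun k => b (J k)) := by
      apply RingHom.ext
      intro c
      exact MvPolynomial.eval_rename _ _ _
    rw [h2] at h1
    exact h1
  -- relations at the points
  have hrel : ∀ u ∈ VarPts ℂ y, u 0 ≠ 0 → ∀ Q : MvPolynomial (Fin n) ℂ,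
      MvPolynomial.aeval a Q = 0 → MvPolynomial.eval (fun j => u (Fin.succ j) / u 0) Q = 0 := by
    intro u hu hu0 Q hQ
    have h1 : val y (hmg Q) = 0 := by
      change MvPolynomial.aeval y (hmg Q) = 0
      rw [hmg_aeval hy0, ← ha, hQ, mul_zero]
    have h2 := hu.2 _ ⟨_, hmg_form Q⟩ h1
    change MvPolynomial.aeval u (hmg Q) = 0 at h2
    rw [hmg_aeval hu0] at h2
    have h3 := (mul_eq_zero.1 h2).resolve_left (pow_ne_zero _ hu0)
    rwa [MvPolynomial.aeval_eq_eval] at h3
  obtain ⟨g, hg⟩ : ∃ g : MvPolynomial (Fin n) ℂ, g = qH (Polynomial.C S) * qH (Polynomial.derivative P) :=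
    ⟨_, rfl⟩
  refine ⟨hmg g, ⟨_, hmg_form g⟩, ?_, ?_⟩
  · change MvPolynomial.aeval y (hmg g) ≠ 0
    rw [hmg_aeval hy0, ← ha, hg, map_mul, hqa, hqa, Polynomial.eval₂_C]
    exact mul_ne_zero (pow_ne_zero _ hy0) (mul_ne_zero hbS hP')
  intro x hx hx0 hxG
  obtain ⟨b, hb⟩ : ∃ b : Fin n → ℂ, b = fun j => x (Fin.succ j) / x 0 := ⟨_, rfl⟩
  have hxg : MvPolynomial.eval b g ≠ 0 := by
    intro h0
    apply hxG
    change MvPolynomial.aeval x (hmg g) = 0
    rw [hmg_aeval hx0, ← hb, MvPolynomial.aeval_eq_eval]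
    change _ * MvPolynomial.eval b g = 0
    rw [h0, mul_zero]
  obtain ⟨z0, hz0⟩ : ∃ z0 : Fin w → ℂ, z0 = fun k => b (J k) := ⟨_, rfl⟩
  obtain ⟨t0, ht0⟩ : ∃ t0 : ℂ, t0 = MvPolynomial.eval b N := ⟨_, rfl⟩
  rw [hg, map_mul, hqb, hqb, ← hz0, ← ht0] at hxg
  have hS0 : MvPolynomial.eval z0 S ≠ 0 := by
    have h1 := left_ne_zero_of_mul hxg
    unfold Ez at h1
    rwa [Polynomial.coe_eval₂RingHom, Polynomial.eval₂_C] at h1
  have hP0' : Ez z0 t0 (Polynomial.derivative P) ≠ 0 := right_ne_zero_of_mul hxg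
  have hP0 : Ez z0 t0 P = 0 := by
    rw [hz0, ht0, ← hqb, hb]
    exact hrel x hx hx0 _ (by rw [hqa, hP])
  -- the implicit function
  have hfan : ∀ p : (Fin w → ℂ) × ℂ, AnalyticAt ℂ (fun p : (Fin w → ℂ) × ℂ => Ez p.1 p.2 P) p :=
    fun p => an_Ez (fun i => ((ContinuousLinearMap.proj (R := ℂ) (φ := fun _ : Fin w => ℂ) i).comp
      (ContinuousLinearMap.fst ℂ (Fin w → ℂ) ℂ)).analyticAt _) analyticAt_snd P
  obtain ⟨τ, hτ, hτ0, hτP, hτu⟩ := ift (hfan (z0, t0)) (by rw [fderiv_Ez]; exact hP0') hP0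
  change AnalyticAt ℂ τ z0 at hτ
  change τ z0 = t0 at hτ0
  have hSan : ∀ z : Fin w → ℂ, AnalyticAt ℂ (fun z => MvPolynomial.eval z S) z := fun z =>
    an_ev (g := fun z : Fin w → ℂ => z)
      (fun i => (ContinuousLinearMap.proj (R := ℂ) (φ := fun _ : Fin w => ℂ) i).analyticAt _) S
  have hev : ∀ᶠ z in 𝓝 z0, AnalyticAt ℂ τ z ∧ Ez z (τ z) P = 0 ∧ MvPolynomial.eval z S ≠ 0 :=
    hτ.eventually_analyticAt.and (hτP.and ((hSan z0).continuousAt.eventually_ne hS0))
  obtain ⟨U, hU, hUo, hz0U⟩ := eventually_nhds_iff.1 hev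
  -- relations on the graph
  have hV : ∀ H : Polynomial (MvPolynomial (Fin w) ℂ), H.eval₂ (bv a J) θ = 0 →
      ∀ z ∈ U, Ez z (τ z) H = 0 := by
    intro H hH z hz
    obtain ⟨s, hs, Q, hQ⟩ := hdiv H hH
    by_contra hne
    have hc : ContinuousAt (fun z => Ez z (τ z) H) z :=
      (an_Ez (g := fun z : Fin w → ℂ => z)
        (fun i => (ContinuousLinearMap.proj (R := ℂ) (φ := fun _ : Fin w => ℂ) i).analyticAt _)
        (hU z hz).1 H).continuousAt
    obtain ⟨O, hO, hOo, hzO⟩ := eventually_nhds_iff.1 ((hc.eventually_ne hne).and (hUo.mem_nhds hz))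
    obtain ⟨z1, hz1, hz1s⟩ := (dense_ne hs).inter_open_nonempty O hOo ⟨z, hzO⟩
    have h1 := congrArg (Ez z1 (τ z1)) hQ
    rw [map_mul, map_mul, (hU z1 (hO z1 hz1).2).2.1, zero_mul] at h1
    have h2 : Ez z1 (τ z1) (Polynomial.C s) = MvPolynomial.eval z1 s := by
      unfold Ez
      rw [Polynomial.coe_eval₂RingHom, Polynomial.eval₂_C]
    rw [h2] at h1
    rcases mul_eq_zero.1 h1 with h3 | h3
    · exact hz1s h3
    · exact (hO z1 hz1).1 h3
  have hzx : (fun k => x ((J k).succ) / x 0) = z0 := by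
    rw [hz0, hb]
  obtain ⟨Ψ, hΨ⟩ : ∃ Ψ : (Fin w → ℂ) → Fin (n + 1) → ℂ, ∀ z, Ψ z =
      Fin.cons 1 (fun j => Ez z (τ z) (R j) / MvPolynomial.eval z S) := ⟨_, fun _ => rfl⟩
  refine ⟨0, fun k => (J k).succ, U, Ψ, hx0, hUo, by rw [hzx]; exact hz0U, ?_, ?_, ?_⟩
  · intro z hz
    rw [analyticAt_pi_iff]
    intro j
    refine Fin.cases ?_ (fun j => ?_) j
    · simp only [hΨ, Fin.cons_zero]
      exact analyticAt_const
    · simp only [hΨ, Fin.cons_succ]
      exact (an_Ez (g := fun z : Fin w → ℂ => z)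
        (fun i => (ContinuousLinearMap.proj (R := ℂ) (φ := fun _ : Fin w => ℂ) i).analyticAt _)
        (hU z hz).1 (R j)).div (hSan z) (hU z hz).2.2
  · intro z hz
    have hSz := (hU z hz).2.2
    rw [hΨ]
    refine ⟨⟨⟨fun h0 => ?_, fun G hG hv => ?_⟩, ?_⟩, by rw [Fin.cons_zero], fun k => ?_⟩
    · have := congrFun h0 0
      rw [Fin.cons_zero] at this
      exact one_ne_zero this
    · obtain ⟨D, hD⟩ := hG
      -- the polynomial
      have h1 : (MvPolynomial.aeval (Fin.cons (Polynomial.C S) R :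
          Fin (n + 1) → Polynomial (MvPolynomial (Fin w) ℂ)) G).eval₂ (bv a J) θ = 0 := by
        have h2 := MvPolynomial.map_aeval (Fin.cons (Polynomial.C S) R :
          Fin (n + 1) → Polynomial (MvPolynomial (Fin w) ℂ)) (Polynomial.eval₂RingHom (bv a J) θ) G
        change (Polynomial.eval₂RingHom (bv a J) θ) _ = 0
        rw [h2]
        have h3 : (Polynomial.eval₂RingHom (bv a J) θ).comp
            (algebraMap ℂ (Polynomial (MvPolynomial (Fin w) ℂ))) = algebraMap ℂ K := by
          apply RingHom.ext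
          intro c
          change Polynomial.eval₂ (bv a J) θ (algebraMap ℂ (Polynomial (MvPolynomial (Fin w) ℂ)) c) = _
          rw [Polynomial.algebraMap_apply, Polynomial.eval₂_C]
          exact MvPolynomial.aeval_C _ _
        rw [h3]
        have h4 : (fun i => (Polynomial.eval₂RingHom (bv a J) θ) ((Fin.cons (Polynomial.C S) R :
            Fin (n + 1) → Polynomial (MvPolynomial (Fin w) ℂ)) i)) =
              (Fin.cons (bv a J S) (fun j => bv a J S * a j) : Fin (n + 1) → K) := by
          funext i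
          refine Fin.cases ?_ (fun j => ?_) i
          · rw [Fin.cons_zero, Fin.cons_zero, Polynomial.coe_eval₂RingHom, Polynomial.eval₂_C]
          · rw [Fin.cons_succ, Fin.cons_succ, Polynomial.coe_eval₂RingHom, ← hR]
        rw [h4]
        change MvPolynomial.aeval _ G = 0
        rw [aeval_cons_form hD]
        have h5 : (y : Fin (n + 1) → K) = Fin.cons (y 0) (fun j => y 0 * a j) := by
          funext i
          refine Fin.cases ?_ (fun j => ?_) i
          · rw [Fin.cons_zero]
          · rw [Fin.cons_succ, ha]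
            field_simp
        have h6 : MvPolynomial.aeval y G = 0 := hv
        rw [h5, aeval_cons_form hD] at h6
        rw [(mul_eq_zero.1 h6).resolve_left (pow_ne_zero _ hy0), mul_zero]
      have h7 := hV _ h1 z hz
      have h8 := MvPolynomial.map_aeval (Fin.cons (Polynomial.C S) R :
          Fin (n + 1) → Polynomial (MvPolynomial (Fin w) ℂ)) (Ez z (τ z)) G
      rw [h8] at h7
      have h3 : (Ez z (τ z)).comp
          (algebraMap ℂ (Polynomial (MvPolynomial (Fin w) ℂ))) = RingHom.id ℂ := by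
        apply RingHom.ext
        intro c
        change Polynomial.eval₂ _ _ (algebraMap ℂ (Polynomial (MvPolynomial (Fin w) ℂ)) c) = c
        rw [Polynomial.algebraMap_apply, Polynomial.eval₂_C, MvPolynomial.algebraMap_eq,
          MvPolynomial.eval_C]
      have h4 : (fun i => (Ez z (τ z)) ((Fin.cons (Polynomial.C S) R :
          Fin (n + 1) → Polynomial (MvPolynomial (Fin w) ℂ)) i)) =
            (Fin.cons (MvPolynomial.eval z S) (fun j => MvPolynomial.eval z S *
              (Ez z (τ z) (R j) / MvPolynomial.eval z S)) : Fin (n + 1) → ℂ) := by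
        funext i
        refine Fin.cases ?_ (fun j => ?_) i
        · rw [Fin.cons_zero, Fin.cons_zero]
          unfold Ez
          rw [Polynomial.coe_eval₂RingHom, Polynomial.eval₂_C]
        · rw [Fin.cons_succ, Fin.cons_succ]
          field_simp
      rw [h3, h4] at h7
      change MvPolynomial.aeval _ G = 0 at h7
      rw [aeval_cons_form hD] at h7
      exact (mul_eq_zero.1 h7).resolve_left (pow_ne_zero _ hSz)
    · rw [Fin.cons_zero]
      exact one_ne_zero
    · rw [Fin.cons_succ]
      have h1 := hV (Polynomial.C (S * MvPolynomial.X k) - R (J k)) (by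
        rw [Polynomial.eval₂_sub, Polynomial.eval₂_C, ← hR, map_mul]
        have h2 : bv a J (MvPolynomial.X k) = a (J k) := MvPolynomial.aeval_X _ _
        rw [h2, sub_self]) z hz
      rw [map_sub] at h1
      have h2 : Ez z (τ z) (Polynomial.C (S * MvPolynomial.X k)) = MvPolynomial.eval z S * z k := by
        unfold Ez
        rw [Polynomial.coe_eval₂RingHom, Polynomial.eval₂_C, map_mul, MvPolynomial.eval_X]
      rw [h2, sub_eq_zero] at h1
      rw [← h1, mul_div_cancel_left₀ _ hSz]
  · -- uniqueness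
    have hbc : ContinuousAt (fun u : Fin (n + 1) → ℂ => fun j : Fin n => u j.succ / u 0) x := by
      rw [continuousAt_pi]
      intro j
      exact (continuous_apply _).continuousAt.div (continuous_apply _).continuousAt hx0
    have hpc : ContinuousAt (fun u : Fin (n + 1) → ℂ =>
        (((fun k => u (J k).succ / u 0), MvPolynomial.eval (fun j : Fin n => u j.succ / u 0) N) :
          (Fin w → ℂ) × ℂ)) x := by
      apply ContinuousAt.prodMk
      · rw [continuousAt_pi]
        intro k
        exact (continuous_apply _).continuousAt.div (continuous_apply _).continuousAt hx0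
      · have h1 : Continuous fun v : Fin n → ℂ => MvPolynomial.eval v N :=
          MvPolynomial.continuous_eval _
        exact ContinuousAt.comp (g := fun v : Fin n → ℂ => MvPolynomial.eval v N)
          (f := fun u : Fin (n + 1) → ℂ => fun j : Fin n => u j.succ / u 0) h1.continuousAt hbc
    have hpx : (((fun k => x (J k).succ / x 0), MvPolynomial.eval (fun j : Fin n => x j.succ / x 0) N) :
          (Fin w → ℂ) × ℂ) = (z0, t0) := by
      rw [hzx, ht0, hb]
    have hτu' : ∀ᶠ v in 𝓝 (((fun k => x (J k).succ / x 0),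
        MvPolynomial.eval (fun j : Fin n => x j.succ / x 0) N) : (Fin w → ℂ) × ℂ),
          Ez v.1 v.2 P = 0 → τ v.1 = v.2 := by
      rw [hpx]
      exact hτu
    have hU' : ∀ᶠ v in 𝓝 (((fun k => x (J k).succ / x 0),
        MvPolynomial.eval (fun j : Fin n => x j.succ / x 0) N) : (Fin w → ℂ) × ℂ), v.1 ∈ U := by
      rw [hpx]
      exact continuous_fst.continuousAt.eventually (hUo.mem_nhds hz0U)
    filter_upwards [hpc.eventually hτu', hpc.eventually hU'] with u hu1 hu2 hu
    obtain ⟨huV, hu0⟩ := hu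
    have h1 : Ez (fun k => u (J k).succ / u 0) (MvPolynomial.eval (fun j : Fin n => u j.succ / u 0) N)
        P = 0 := by
      have h2 := hrel u huV hu0 (qH P) (by rw [hqa, hP])
      rwa [hqb] at h2
    have h2 := hu1 h1
    change τ (fun k => u (J k).succ / u 0) = MvPolynomial.eval (fun j : Fin n => u j.succ / u 0) N at h2
    change (fun k => u (J k).succ / u 0) ∈ U at hu2
    have hSu := (hU _ hu2).2.2
    funext i
    rw [Pi.smul_apply, smul_eq_mul, hΨ]
    refine Fin.cases ?_ (fun j => ?_) i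
    · rw [Fin.cons_zero, mul_one]
    · rw [Fin.cons_succ]
      have h3 := hrel u huV hu0 (qH (R j - Polynomial.C S * Polynomial.C 0) -
        qH (Polynomial.C S) * MvPolynomial.X j) (by
          rw [map_sub, map_mul, hqa, hqa, MvPolynomial.aeval_X, Polynomial.eval₂_C,
            Polynomial.C_0, mul_zero, sub_zero, ← hR, sub_self])
      rw [map_sub, map_mul, hqb, hqb, MvPolynomial.eval_X, Polynomial.C_0, mul_zero, sub_zero] at h3
      have h4 : Ez (fun k => u (J k).succ / u 0)
          (MvPolynomial.eval (fun j : Fin n => u j.succ / u 0) N) (Polynomial.C S) =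
            MvPolynomial.eval (fun k => u (J k).succ / u 0) S := by
        unfold Ez
        rw [Polynomial.coe_eval₂RingHom, Polynomial.eval₂_C]
      rw [h4, ← h2, sub_eq_zero] at h3
      rw [h3, mul_div_cancel_left₀ _ hSu]
      field_simp

end Pool.Agent.U647.AF
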