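import Pool.Agent.U647.AF.Tow
import Pool.Agent.U647.AF.Smo

/-!
# Affine varieties whose subvarieties map to complex tori
-/

set_option autoImplicit false

open Filter Topology MvPolynomial LinearAlgebra.Projectivization

namespace Pool.Agent.U647.AF

open Pool.Agent.W602.GT (IsForm val Cone SubVar coords VarPts)
open Pool.Agent.N154.TB (Zeros CurveIn IsConst BrodyHyp HypFibres)
open Pool.Agent.N154.TC (Compl Stratum LocOne PunctX)
open Pool.Agent.N154.TT (HolToTorus)
open Pool.Agent.N154.GG (GraphAt Extends projDist kobayashi holP_of proj_ext)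
open Pool.Agent.N155 (exists_closure nz nz_Phi spec_dense)
open Pool.Agent.Y190.OP (Phi HolP)

variable {n : ℕ}

/-- The forms which vanish on the subvariety with generic point `y`. -/
def Van {K : Type} [Field K] [Algebra ℂ K] (y : Fin (n + 1) → K) :
    Set (MvPolynomial (Fin (n + 1)) ℂ) := {G | IsForm G ∧ val y G = 0}

/-- Every closed subvariety `W` of dimension at least two of the affine variety `{F = 0, x₀ ≠ 0}`,
with generic point `y` and function field `K`, has a nonconstant map to a complex torus: there is a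
holomorphic map `α` of its closure in projective space to a complex torus, such that every fibre of
`α` on `W` lies in a hypersurface which does not contain `W`. -/
def MapsToTori (F : Set (MvPolynomial (Fin (n + 1)) ℂ)) : Prop :=
  ∀ (K : Type) [Field K] [Algebra ℂ K] (w : ℕ) (y : Fin (n + 1) → K), SubVar (fam F) K w y →
    y 0 ≠ 0 → 2 ≤ w → ∃ (m : ℕ) (L : Submodule ℤ (Fin m → ℂ)) (_ : DiscreteTopology L)
      (_ : IsZLattice ℝ L) (α : (Fin (n + 1) → ℂ) → (Fin m → ℂ) ⧸ L),
      HolToTorus (VarPts ℂ y) L α ∧ ∀ c, ∃ Q : MvPolynomial (Fin (n + 1)) ℂ, IsForm Q ∧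
        val y Q ≠ 0 ∧ ∀ x ∈ VarPts ℂ y, x 0 ≠ 0 → α x = c → val x Q = 0

theorem cone_van {K : Type} [Field K] [Algebra ℂ K] (y : Fin (n + 1) → K) :
    Cone (fam (Van y)) = VarPts ℂ y := by
  ext x
  constructor
  · rintro ⟨h0, h1⟩
    exact ⟨h0, fun G hG hv => h1 ⟨G, hG, hv⟩⟩
  · rintro ⟨h0, h1⟩
    exact ⟨h0, fun i => h1 _ i.2.1 i.2.2⟩

theorem aff_van {K : Type} [Field K] [Algebra ℂ K] (y : Fin (n + 1) → K) :
    Aff (Van y) = {x | x ∈ VarPts ℂ y ∧ x 0 ≠ 0} := by
  unfold Aff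
  rw [cone_van]

/-- specializations have at most the same dimension -/
theorem trdeg_mono {K L : Type} [Field K] [Algebra ℂ K] [Field L] [Algebra ℂ L]
    {y : Fin (n + 1) → K} {z : Fin (n + 1) → L} (hy0 : y 0 ≠ 0) (hz0 : z 0 ≠ 0)
    (hgz : coords ℂ z = ⊤) {d w : ℕ} (hd : Algebra.trdeg ℂ K = d) (hw : Algebra.trdeg ℂ L = w)
    (h : ∀ G : MvPolynomial (Fin (n + 1)) ℂ, IsForm G → val y G = 0 → val z G = 0) : w ≤ d := by
  obtain ⟨J, hJ, -⟩ := exists_J (gen_of_coords hz0 hgz) hw
  have hJy : AlgebraicIndependent ℂ fun k => (fun j : Fin n => y j.succ / y 0) (J k) := by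
    rw [algebraicIndependent_iff]
    intro q hq
    rw [algebraicIndependent_iff] at hJ
    apply hJ q
    have h1 : val y (hmg (rename J q)) = 0 := by
      change aeval y (hmg (rename J q)) = 0
      rw [hmg_aeval hy0, aeval_rename]
      have h2 : aeval ((fun j : Fin n => y j.succ / y 0) ∘ J) q = 0 := hq
      rw [h2, mul_zero]
    have h3 := h _ ⟨_, hmg_form _⟩ h1
    change aeval z (hmg (rename J q)) = 0 at h3
    rw [hmg_aeval hz0, aeval_rename] at h3
    exact (mul_eq_zero.1 h3).resolve_left (pow_ne_zero _ hz0)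
  have h4 := hJy.cardinalMk_le_trdeg
  rw [hd, Cardinal.mk_fin] at h4
  exact_mod_cast h4

variable {A ι : Type} {F E : Set (MvPolynomial (Fin (n + 1)) ℂ)}
  {P : A → ι → MvPolynomial (Fin (n + 1)) ℂ}

/-- the Zariski closure of an entire curve -/
theorem curve_closure (hF : ∀ G ∈ F, IsForm G) {f : ℂ → ℙ ℂ (Fin (n + 1) → ℂ)}
    (hf : CurveIn (Aff F) f) : ∃ (K1 : Type) (_ : Field K1) (_ : Algebra ℂ K1) (w1 : ℕ)
      (y1 : Fin (n + 1) → K1), SubVar (fam F) K1 w1 y1 ∧ y1 0 ≠ 0 ∧ CurveIn (Aff (Van y1)) f ∧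
        ∀ G : MvPolynomial (Fin (n + 1)) ℂ, IsForm G → (∀ z, val (f z).rep G = 0) →
          val y1 G = 0 := by
  obtain ⟨K1, _, _, w, y1, hy1, hgen, hw, hrel, -⟩ := exists_closure (holP_of hf.1)
  have hrel' : ∀ G : MvPolynomial (Fin (n + 1)) ℂ, IsForm G →
      (val y1 G = 0 ↔ ∀ z, val (f z).rep G = 0) := by
    intro G hG
    rw [hrel G hG]
    refine forall_congr' fun z => ?_
    obtain ⟨d, hd⟩ := hG
    rw [nz_Phi hd (f z).rep_nonzero, val_ev, not_not]
  refine ⟨K1, _, _, w, y1, ⟨hy1, fun i => (hrel' _ (hF _ i.2)).2 fun z => (hf.2 z).1.2 i, hgen, hw⟩,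
    ?_, ⟨hf.1, fun z => ?_⟩, fun G hG h => (hrel' G hG).2 h⟩
  · intro h0
    have h1 := (hrel' (X 0) ⟨1, isHomogeneous_X _ _⟩).1 (by
      unfold Pool.Agent.W602.GT.val
      rw [aeval_X, h0]) 0
    rw [val_ev, eval_X] at h1
    exact (hf.2 0).2 h1
  · rw [aff_van]
    exact ⟨⟨(f z).rep_nonzero, fun G hG hv => (hrel' G hG).1 hv z⟩, (hf.2 z).2⟩

/-- **Entire curves in affine varieties whose subvarieties map to tori** -/
theorem brody_sub [Finite A] (hb : HypBoundary F P) (hF : ∀ G ∈ F, IsForm G) (hgm : NoGm F)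
    (hT : MapsToTori F) (w : ℕ) : ∀ (K : Type) [Field K] [Algebra ℂ K] (y : Fin (n + 1) → K),
      SubVar (fam F) K w y → y 0 ≠ 0 → BrodyHyp (Aff (Van y)) := by
  induction w using Nat.strong_induction_on with
  | _ w ih =>
    intro K _ _ y hy hy0
    have hFE : F ⊆ Van y := fun G hG => ⟨hF G hG, hy.mem ⟨G, hG⟩⟩
    rcases Nat.lt_or_ge 1 w with hw | hw
    swap
    · refine brody_of_noGm hb hgm (Dissected.curves (Van y) (fun G hG => hG.1) ?_) hFE
      intro K' _ _ w' y' hy' hy'0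
      exact (trdeg_mono hy0 hy'0 hy'.gen hy.dim hy'.dim
        fun G hG hv => hy'.mem ⟨G, hG, hv⟩).trans hw
    -- curves in proper closed subsets
    have hprop : ∀ G : MvPolynomial (Fin (n + 1)) ℂ, IsForm G → val y G ≠ 0 → ∀ f,
        CurveIn (Aff (Van y)) f → (∀ z, val (f z).rep G = 0) → IsConst f := by
      intro G hG hyG f hf hfG
      obtain ⟨K1, _, _, w1, y1, hsub, hy10, hf1, hv1⟩ := curve_closure (fun G hG => hG.1) hf
      have hw1 : w1 < w := by
        by_contra hcon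
        push Not at hcon
        exact hyG (spec_dense hsub.ne hsub.gen hy.dim hsub.dim hcon
          (fun G' hG' hv' => hsub.mem ⟨G', hG', hv'⟩) hG (hv1 G hG hfG))
      exact ih w1 hw1 K1 y1 ⟨hsub.ne, fun i => hsub.mem ⟨i.1, hFE i.2⟩, hsub.gen, hsub.dim⟩ hy10
        f hf1
    obtain ⟨G, hG, hyG, hgr⟩ := graph_generic hy0 hy.gen hy.dim
    obtain ⟨m, L, _, _, α, hα, hfib⟩ := hT K w y hy hy0 hw
    have hbE := hb.mono hFE
    have h1 := aff_geo (F := fam (Van y)) (P := P) (G := fun _ : Unit => G) (d := w) (α := α)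
      (fun i => i.2.1) hbE.form hbE.hyp hbE.loc (fun _ => hG) (by
        rw [hbE.compl]
        intro f hf
        exact hprop G hG hyG f ⟨hf.1, fun z => (hf.2 z).1⟩ fun z => (hf.2 z).2 ()) one_pos
      (isHomogeneous_X ℂ 0) (fun x hx => by
          rw [eval_X]
          rw [hbE.compl] at hx
          exact hx.2) (by
        rw [hbE.compl, aff_van]
        intro x hx hxG
        exact hgr x hx.1 hx.2 fun h => hxG fun _ => h) (by
        rw [cone_van]
        exact hα) (by
        intro f hf hc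
        rw [hbE.compl] at hf
        obtain ⟨Q, hQ, hyQ, hQf⟩ := hfib (α (f 0).rep)
        refine hprop Q hQ hyQ f hf fun z => ?_
        have h2 := hf.2 z
        rw [aff_van] at h2
        exact hQf _ h2.1 h2.2 (hc z 0))
    rw [hbE.compl] at h1
    exact h1.1

theorem brody_tori [Finite A] (hb : HypBoundary F P) (hF : ∀ G ∈ F, IsForm G) (hgm : NoGm F)
    (hT : MapsToTori F) : BrodyHyp (Aff F) := by
  intro f hf
  obtain ⟨K1, _, _, w1, y1, hsub, hy10, hf1, -⟩ := curve_closure hF hf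
  exact brody_sub hb hF hgm hT w1 K1 y1 hsub hy10 f hf1

end Pool.Agent.U647.AF
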