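import Pool.Agent.U647.AF.Low

/-!
# Affine varieties which are dissected into curves by maps to complex tori
-/

set_option autoImplicit false

open Filter Topology MvPolynomial LinearAlgebra.Projectivization

namespace Pool.Agent.U647.AF

open Pool.Agent.W602.GT (IsForm val Cone)
open Pool.Agent.N154.TB (Zeros CurveIn IsConst BrodyHyp HypFibres)
open Pool.Agent.N154.TC (Compl Stratum LocOne PunctX)
open Pool.Agent.N154.TT (HolToTorus)
open Pool.Agent.N154.GG (GraphAt Extends projDist kobayashi)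
open Pool.Agent.TH143.HE (gm)

variable {n : ℕ}

/-- The forms in `E`, as a family. -/
abbrev fam (E : Set (MvPolynomial (Fin (n + 1)) ℂ)) : E → MvPolynomial (Fin (n + 1)) ℂ :=
  Subtype.val

/-- The cone over the affine variety `{E = 0, x₀ ≠ 0}`. -/
def Aff (E : Set (MvPolynomial (Fin (n + 1)) ℂ)) : Set (Fin (n + 1) → ℂ) :=
  {x | x ∈ Cone (fam E) ∧ x 0 ≠ 0}

/-- The affine variety `{E = 0, x₀ ≠ 0}` is dissected into curves by holomorphic maps to complex
tori: it has dimension at most one; or there are a holomorphic map `α` of its closure `{E = 0}` to a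
complex torus, and a dissected closed subset `{E = 0, G = 0, x₀ ≠ 0}` outside of which the affine
variety is a complex manifold, such that every fibre of `α` on the affine variety lies in a
dissected closed subset. -/
inductive Dissected : Set (MvPolynomial (Fin (n + 1)) ℂ) → Prop
  | curves (E : Set (MvPolynomial (Fin (n + 1)) ℂ)) (hE : ∀ G ∈ E, IsForm G)
      (h : AtMostCurves (fam E)) : Dissected E
  | step (E : Set (MvPolynomial (Fin (n + 1)) ℂ)) (hE : ∀ G ∈ E, IsForm G) (m d : ℕ)
      (L : Submodule ℤ (Fin m → ℂ)) (_ : DiscreteTopology L) (_ : IsZLattice ℝ L)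
      (α : (Fin (n + 1) → ℂ) → (Fin m → ℂ) ⧸ L) (G : Set (MvPolynomial (Fin (n + 1)) ℂ))
      (Q : (Fin m → ℂ) ⧸ L → Set (MvPolynomial (Fin (n + 1)) ℂ))
      (hα : HolToTorus (Cone (fam E)) L α)
      (hsm : ∀ x ∈ Aff E, x ∉ Aff (E ∪ G) → GraphAt (Aff E) d x) (hG : Dissected (E ∪ G))
      (hfib : ∀ x ∈ Aff E, x ∈ Aff (E ∪ Q (α x))) (hQ : ∀ c, Dissected (E ∪ Q c)) : Dissected E

/-- The boundary `{F = 0, x₀ = 0}` is the union of closed subsets `D a = {P a = 0}`, each locally
given by one equation (for instance of the single subset `{x₀ = 0}`). -/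
structure Boundary {A ι : Type} (F : Set (MvPolynomial (Fin (n + 1)) ℂ))
    (P : A → ι → MvPolynomial (Fin (n + 1)) ℂ) : Prop where
  form : ∀ a i, IsForm (P a i)
  union : ∀ x ∈ Cone (fam F), x 0 = 0 ↔ ∃ a, x ∈ Zeros (P a)
  loc : ∀ a, LocOne (fam F) (P a)

/-- Moreover the strata of the boundary (the sets of the points which lie on exactly the `D a` with
`a` in `I`, for the nonempty sets `I` of indices) are Brody hyperbolic. -/
structure HypBoundary {A ι : Type} (F : Set (MvPolynomial (Fin (n + 1)) ℂ))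
    (P : A → ι → MvPolynomial (Fin (n + 1)) ℂ) : Prop extends Boundary F P where
  hyp : ∀ I : Set A, I.Nonempty → BrodyHyp (Stratum (fam F) P I)

/-- All morphisms from `G_m` to the affine variety are constant. -/
def NoGm (F : Set (MvPolynomial (Fin (n + 1)) ℂ)) : Prop :=
  ∀ (l : ℕ) (p : Fin n → Polynomial ℂ),
    (∀ u : ℂ, u ≠ 0 → (Fin.cons 1 (gm l p u) : Fin (n + 1) → ℂ) ∈ Aff F) →
      ∀ u : ℂ, u ≠ 0 → gm l p u = gm l p 1

variable {A ι : Type} {F E : Set (MvPolynomial (Fin (n + 1)) ℂ)}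
  {P : A → ι → MvPolynomial (Fin (n + 1)) ℂ}

theorem cone_mono (h : F ⊆ E) : Cone (fam E) ⊆ Cone (fam F) := fun _ hx =>
  ⟨hx.1, fun i => hx.2 ⟨i.1, h i.2⟩⟩

theorem Boundary.mono (hb : Boundary F P) (h : F ⊆ E) : Boundary E P where
  form := hb.form
  union := fun x hx => hb.union x (cone_mono h hx)
  loc := fun a x hx => by
    obtain ⟨j, hj⟩ := hb.loc a x ⟨cone_mono h hx.1, hx.2⟩
    exact ⟨j, hj.mono fun u hu hu1 => hu (cone_mono h hu1)⟩

theorem strat_mono (h : F ⊆ E) {I : Set A} : Stratum (fam E) P I ⊆ Stratum (fam F) P I :=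
  fun _ hx => ⟨cone_mono h hx.1, hx.2⟩

theorem HypBoundary.mono (hb : HypBoundary F P) (h : F ⊆ E) : HypBoundary E P where
  toBoundary := hb.toBoundary.mono h
  hyp := fun I hI f hf => hb.hyp I hI f ⟨hf.1, fun z => strat_mono h (hf.2 z)⟩

theorem Boundary.compl (hb : Boundary F P) : Compl (fam F) P = Aff F := by
  ext x
  constructor
  · rintro ⟨h1, h2⟩
    refine ⟨h1, fun h0 => ?_⟩
    obtain ⟨a, ha⟩ := (hb.union x h1).1 h0
    exact h2 a ha
  · rintro ⟨h1, h2⟩
    exact ⟨h1, fun a ha => h2 ((hb.union x h1).2 ⟨a, ha⟩)⟩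

theorem HypBoundary.compl (hb : HypBoundary F P) : Compl (fam F) P = Aff F :=
  hb.toBoundary.compl

theorem aff_union (E G : Set (MvPolynomial (Fin (n + 1)) ℂ)) :
    Aff (E ∪ G) = Aff E ∩ Zeros (fam G) := by
  ext x
  constructor
  · rintro ⟨⟨h0, h1⟩, h2⟩
    exact ⟨⟨⟨h0, fun i => h1 ⟨i.1, Or.inl i.2⟩⟩, h2⟩, fun i => h1 ⟨i.1, Or.inr i.2⟩⟩
  · rintro ⟨⟨⟨h0, h1⟩, h2⟩, h3⟩
    refine ⟨⟨h0, fun i => ?_⟩, h2⟩
    rcases i.2 with h | h
    · exact h1 ⟨i.1, h⟩
    · exact h3 ⟨i.1, h⟩

theorem Dissected.form (h : Dissected E) : ∀ G ∈ E, IsForm G := by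
  cases h with
  | curves _ hE _ => exact hE
  | step _ hE => exact hE

/-- **Entire curves in dissected affine varieties** -/
theorem brody_of_noGm [Finite A] (hb : HypBoundary F P) (hgm : NoGm F) {E : Set (MvPolynomial (Fin (n + 1)) ℂ)}
    (hE : Dissected E) : F ⊆ E → BrodyHyp (Aff E) := by
  induction hE with
  | curves E hE h =>
    intro hFE
    have hbE := hb.mono hFE
    intro f hf
    by_contra hnc
    rw [← hbE.compl] at hf
    obtain ⟨g, hg, hgnc, -, hlip⟩ := open_brody (fun i => hE _ i.2) hbE.form hbE.hyp hbE.loc hf hnc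
    obtain ⟨l, p, h1, ⟨u, hu, hne⟩, -⟩ := gm_of_low (F := fam E) (P := P) (fun i => hE _ i.2) hbE.form
      (fun x hx => by
        rw [hbE.compl] at hx
        exact hx.2)
      (fun x hx h0 => by
        rw [hbE.compl]
        exact ⟨hx, h0⟩) (fun i => hE _ i.2) h hg hgnc hlip (fun z i => (hg.2 z).1.2 i)
    apply hne
    refine hgm l p (fun v hv => ?_) u hu
    have h2 := h1 v hv
    rw [hbE.compl] at h2
    exact ⟨cone_mono hFE h2.1, h2.2⟩
  | step E hE m d L _ _ α G Q hα hsm hG hfib hQ ihG ihQ =>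
    intro hFE
    have hbE := hb.mono hFE
    have h1 := aff_geo (F := fam E) (P := P) (G := fam G) (d := d) (α := α) (fun i => hE _ i.2)
      hbE.form hbE.hyp hbE.loc (fun i => hG.form _ (Or.inr i.2)) (by
        rw [hbE.compl, ← aff_union]
        exact ihG (hFE.trans Set.subset_union_left)) one_pos (isHomogeneous_X ℂ 0) (fun x hx => by
          rw [eval_X]
          rw [hbE.compl] at hx
          exact hx.2) (by
        rw [hbE.compl]
        intro x hx hxG
        refine hsm x hx fun h => hxG ?_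
        rw [aff_union] at h
        exact h.2) hα (by
        intro f hf hc
        rw [hbE.compl] at hf
        refine ihQ (α (f 0).rep) (hFE.trans Set.subset_union_left) f ⟨hf.1, fun z => ?_⟩
        have := hfib _ (hf.2 z)
        rwa [hc z 0] at this)
    rw [hbE.compl] at h1
    exact h1.1

end Pool.Agent.U647.AF
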