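import Pool.Agent.N154.TC.Defs
import Pool.Agent.W602.GT.Gm

/-!
# The 2-forms of affine varieties

On the complement of a hypersurface `{s = 0}` in projective space the forms
`x_a ^ (4 e - 4) * (x_i dx_j dx_k ± ...) / s ^ 4`, `e = deg s`, are holomorphic, twisted by `O(-1)`,
and they are not all zero on any plane. So all smooth affine varieties have positive 2-forms.
-/

set_option autoImplicit false

open Filter Topology MvPolynomial

namespace Pool.Agent.U647.AF

open Pool.Agent.W602.GT (IsForm val Cone)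
open Pool.Agent.N154.TB (TwoForms Twisted HolForms PosForms Zeros)
open Pool.Agent.N154.TC (Compl)
open Pool.Agent.N154.GG (GraphAt)

variable {n : ℕ}

/-- the minors of three vectors -/
def dt (i j k : Fin (n + 1)) (x v w : Fin (n + 1) → ℂ) : ℂ :=
  x i * (v j * w k - v k * w j) - x j * (v i * w k - v k * w i) + x k * (v i * w j - v j * w i)

/-- the forms -/
noncomputable def eta (s : MvPolynomial (Fin (n + 1)) ℂ) (e : ℕ)
    (q : Fin (n + 1) × Fin (n + 1) × Fin (n + 1) × Fin (n + 1)) (x v w : Fin (n + 1) → ℂ) : ℂ :=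
  x q.1 ^ (4 * e - 4) * dt q.2.1 q.2.2.1 q.2.2.2 x v w / eval x s ^ 4

theorem dt_tw (i j k : Fin (n + 1)) (x v w : Fin (n + 1) → ℂ) (c e f : ℂ) :
    dt i j k (c • x) (c • (v + e • x)) (c • (w + f • x)) = c ^ 3 * dt i j k x v w := by
  unfold dt
  simp only [Pi.smul_apply, Pi.add_apply, smul_eq_mul]
  ring

/-- three linearly independent vectors have a nonzero minor -/
theorem exists_dt {x v w : Fin (n + 1) → ℂ} (h : LinearIndependent ℂ ![x, v, w]) :
    ∃ i j k, dt i j k x v w ≠ 0 := by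
  by_contra hcon
  push Not at hcon
  have hdep : ∀ a b c : ℂ, a • x + b • v + c • w = 0 → a = 0 ∧ b = 0 ∧ c = 0 := by
    intro a b c habc
    have h1 := Fintype.linearIndependent_iff.1 h ![a, b, c] (by
      simp only [Fin.sum_univ_three, Matrix.cons_val_zero, Matrix.cons_val_one, Matrix.cons_val]
      exact habc)
    exact ⟨h1 0, h1 1, h1 2⟩
  -- a nonzero minor of two vectors
  have h2 : ∃ i j, x i * v j - x j * v i ≠ 0 := by
    by_contra hcon2
    push Not at hcon2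
    have hx : ∃ i, x i ≠ 0 := by
      by_contra hx
      push Not at hx
      have h3 := hdep 1 0 0 (by
        funext l
        simp [hx l])
      exact one_ne_zero h3.1
    obtain ⟨i, hi⟩ := hx
    have h3 := hdep (v i) (-x i) 0 (by
      funext l
      simp only [Pi.add_apply, Pi.smul_apply, smul_eq_mul, Pi.zero_apply]
      linear_combination -(hcon2 i l))
    exact hi (neg_eq_zero.1 h3.2.1)
  obtain ⟨i, j, hij⟩ := h2
  have h3 := hdep (v i * w j - v j * w i) (-(x i * w j - x j * w i)) (x i * v j - x j * v i) (by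
    funext l
    simp only [Pi.add_apply, Pi.smul_apply, smul_eq_mul, Pi.zero_apply]
    have h4 := hcon i j l
    unfold dt at h4
    linear_combination h4)
  exact hij h3.2.2

theorem an_eval {E : Type} [NormedAddCommGroup E] [NormedSpace ℂ E] {g : E → Fin (n + 1) → ℂ}
    {U : Set E} (hg : AnalyticOnNhd ℂ g U) (s : MvPolynomial (Fin (n + 1)) ℂ) :
    AnalyticOnNhd ℂ (fun z => eval (g z) s) U := by
  have hgi : ∀ i, AnalyticOnNhd ℂ (fun z => g z i) U := fun i z hz =>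
    (analyticAt_pi_iff.1 (hg z hz)) i
  induction s using MvPolynomial.induction_on with
  | C a => simpa using analyticOnNhd_const
  | add p q hp hq =>
    simp only [map_add]
    exact hp.add hq
  | mul_X p i hp =>
    simp only [map_mul, eval_X]
    exact hp.mul (hgi i)

theorem an_eta {E : Type} [NormedAddCommGroup E] [NormedSpace ℂ E]
    {g v w : E → Fin (n + 1) → ℂ} {U : Set E} (hg : AnalyticOnNhd ℂ g U)
    (hv : AnalyticOnNhd ℂ v U) (hw : AnalyticOnNhd ℂ w U) {s : MvPolynomial (Fin (n + 1)) ℂ}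
    (hs : ∀ z ∈ U, eval (g z) s ≠ 0) (e : ℕ)
    (q : Fin (n + 1) × Fin (n + 1) × Fin (n + 1) × Fin (n + 1)) :
    AnalyticOnNhd ℂ (fun z => eta s e q (g z) (v z) (w z)) U := by
  have hgi : ∀ i, AnalyticOnNhd ℂ (fun z => g z i) U := fun i z hz =>
    (analyticAt_pi_iff.1 (hg z hz)) i
  have hvi : ∀ i, AnalyticOnNhd ℂ (fun z => v z i) U := fun i z hz =>
    (analyticAt_pi_iff.1 (hv z hz)) i
  have hwi : ∀ i, AnalyticOnNhd ℂ (fun z => w z i) U := fun i z hz =>
    (analyticAt_pi_iff.1 (hw z hz)) i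
  unfold eta dt
  refine AnalyticOnNhd.div ?_ ((an_eval hg s).pow 4) fun z hz => pow_ne_zero _ (hs z hz)
  refine ((hgi _).pow _).mul ?_
  refine (((hgi _).mul (((hvi _).mul (hwi _)).sub ((hvi _).mul (hwi _)))).sub
    ((hgi _).mul (((hvi _).mul (hwi _)).sub ((hvi _).mul (hwi _))))).add
    ((hgi _).mul (((hvi _).mul (hwi _)).sub ((hvi _).mul (hwi _))))

theorem val_ev (x : Fin (n + 1) → ℂ) (P : MvPolynomial (Fin (n + 1)) ℂ) :
    val x P = eval x P := by
  unfold Pool.Agent.W602.GT.val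
  rw [aeval_eq_eval]

theorem ev_smul {s : MvPolynomial (Fin (n + 1)) ℂ} {e : ℕ} (hs : s.IsHomogeneous e) (c : ℂ)
    (x : Fin (n + 1) → ℂ) : eval (c • x) s = c ^ e * eval x s := by
  rw [← val_ev, ← val_ev]
  exact Pool.Agent.W602.GT.val_smul hs c x

theorem clm_an {E V W : Type} [NormedAddCommGroup E] [NormedSpace ℂ E] [NormedAddCommGroup V]
    [NormedSpace ℂ V] [NormedAddCommGroup W] [NormedSpace ℂ W] {A : E → V →L[ℂ] W} {v : E → V}
    {U : Set E} (hA : AnalyticOnNhd ℂ A U) (hv : AnalyticOnNhd ℂ v U) :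
    AnalyticOnNhd ℂ (fun p => A p (v p)) U := by
  intro p hp
  have h1 : AnalyticAt ℂ (fun q : (V →L[ℂ] W) × V => q.1 q.2) (A p, v p) :=
    ContinuousLinearMap.analyticAt_bilinear (ContinuousLinearMap.id ℂ (V →L[ℂ] W)) _
  exact h1.comp₂ (hA p hp) (hv p hp)

variable {m d : ℕ} {ι ι' ι'' A : Type} {F : ι → MvPolynomial (Fin (n + 1)) ℂ}
  {P : A → ι'' → MvPolynomial (Fin (n + 1)) ℂ} {G : ι' → MvPolynomial (Fin (n + 1)) ℂ}

/-- **Affine varieties have positive 2-forms.** -/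
theorem twoForms {s : MvPolynomial (Fin (n + 1)) ℂ} {e : ℕ} (he : 0 < e)
    (hs : s.IsHomogeneous e) (hne : ∀ x ∈ Compl F P, eval x s ≠ 0)
    (hsm : ∀ x ∈ Compl F P, x ∉ Zeros G → GraphAt (Compl F P) d x)
    (Λ : Submodule ℤ (Fin m → ℂ)) (α : (Fin (n + 1) → ℂ) → (Fin m → ℂ) ⧸ Λ) :
    TwoForms (Compl F P) (Zeros G) d α (fun _ => 1) (eta s e) := by
  refine ⟨hsm, ⟨?_, fun _ => le_rfl, fun _ h => by simp at h⟩, ⟨?_, ?_⟩, ?_⟩
  · intro q x hx v w c e' f hc
    have h1 : eval (c • x) s = c ^ e * eval x s := ev_smul hs c x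
    have h2 := hne x hx
    unfold eta
    rw [dt_tw, h1, Pi.smul_apply, smul_eq_mul, pow_one, mul_pow, mul_pow, ← pow_mul]
    have h3 : c ^ (e * 4) = c ^ (4 * e - 4) * c ^ 3 * c := by
      rw [mul_assoc, ← pow_succ, ← pow_add]
      congr 1
      omega
    rw [h3]
    field_simp
  · intro q U Ψ hU hΨ hΨX
    have hfst : AnalyticOnNhd ℂ (fun p : (Fin d → ℂ) × (Fin d → ℂ) × (Fin d → ℂ) => p.1)
        (U ×ˢ Set.univ) := fun p _ => analyticAt_fst
    have hΨ' : AnalyticOnNhd ℂ (fun p : (Fin d → ℂ) × (Fin d → ℂ) × (Fin d → ℂ) => Ψ p.1)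
        (U ×ˢ Set.univ) := hΨ.comp hfst fun p hp => hp.1
    have hd : AnalyticOnNhd ℂ (fun p : (Fin d → ℂ) × (Fin d → ℂ) × (Fin d → ℂ) =>
        fderiv ℂ Ψ p.1) (U ×ˢ Set.univ) := hΨ.fderiv.comp hfst fun p hp => hp.1
    have h21 : AnalyticOnNhd ℂ (fun p : (Fin d → ℂ) × (Fin d → ℂ) × (Fin d → ℂ) => p.2.1)
        (U ×ˢ Set.univ) := fun p _ => analyticAt_fst.fun_comp analyticAt_snd
    have h22 : AnalyticOnNhd ℂ (fun p : (Fin d → ℂ) × (Fin d → ℂ) × (Fin d → ℂ) => p.2.2)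
        (U ×ˢ Set.univ) := fun p _ => analyticAt_snd.fun_comp analyticAt_snd
    exact an_eta hΨ' (clm_an hd h21) (clm_an hd h22) (fun p hp => hne _ (hΨX _ hp.1)) e q
  · intro x hx _
    refine ⟨{u | eval u s ≠ 0}, ?_, hne x hx, fun q => ?_⟩
    · exact isOpen_ne_fun (by
        have h1 : Continuous fun u : Fin (n + 1) → ℂ => eval u s := MvPolynomial.continuous_eval _
        exact h1) continuous_const
    · have h1 : AnalyticOnNhd ℂ (fun p : (Fin (n + 1) → ℂ) × (Fin (n + 1) → ℂ) × (Fin (n + 1) → ℂ) =>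
          p.1) ({u | eval u s ≠ 0} ×ˢ Set.univ) := fun p _ => analyticAt_fst
      have h21 : AnalyticOnNhd ℂ (fun p : (Fin (n + 1) → ℂ) × (Fin (n + 1) → ℂ) ×
          (Fin (n + 1) → ℂ) => p.2.1) ({u | eval u s ≠ 0} ×ˢ Set.univ) :=
        fun p _ => analyticAt_fst.fun_comp analyticAt_snd
      have h22 : AnalyticOnNhd ℂ (fun p : (Fin (n + 1) → ℂ) × (Fin (n + 1) → ℂ) ×
          (Fin (n + 1) → ℂ) => p.2.2) ({u | eval u s ≠ 0} ×ˢ Set.univ) :=
        fun p _ => analyticAt_snd.fun_comp analyticAt_snd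
      exact an_eta h1 h21 h22 (fun p hp => hp.1) e q
  · intro U Ψ W _ _ _ hΨX z hz _ a b hind _
    obtain ⟨i, j, k, hijk⟩ := exists_dt hind
    obtain ⟨l, hl⟩ : ∃ l, Ψ z l ≠ 0 := by
      by_contra hcon
      push Not at hcon
      exact (hΨX z hz).1.1.1 (funext hcon)
    refine ⟨(l, i, j, k), ?_⟩
    unfold eta
    exact div_ne_zero (mul_ne_zero (pow_ne_zero _ hl) hijk)
      (pow_ne_zero _ (hne _ (hΨX z hz).1))

end Pool.Agent.U647.AF
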